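import Pool.Agent.helper73.AD.GW1

/-!
Module WE1 of the project ad (MP_a29257_gt): positions of the leaves of the plaque `i` with
respect to `l`.
-/

open scoped MatrixGroups LinearAlgebra.Projectivization BigOperators
open Matrix UpperHalfPlane
open Pool.Agent.helper73.AD (PS Word Arc sg Cone)

namespace AdSBend

open LeafSystem

theorem WE1 (hB3 : BD3_stmt) (hB4 : BD4_stmt) (hPT3 : PT3_stmt) (hP2 : PN2_stmt) : WE1_stmt := by
  intro Γ J K c i v hv
  obtain ⟨hsym, -, htri⟩ := hP2 Γ c.hΓ c.X.S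
  obtain ⟨hne, hrot, hasy, htot, htr, -⟩ := id hB4
  set p := c.W.A i with hp
  set B := sw (c.W.A (i + 1)) with hB
  have hpB : c.X.S.CoPl p B := c.W.copl i
  have m1 : Cyc p.1 c.l.2 p.2 := (c.W.mem i).2.1
  have m2 : Cyc p.2 c.l.1 p.1 := (c.W.mem i).2.2
  have m3 : Cyc B.2 c.l.2 B.1 := (c.W.mem (i + 1)).2.1
  have m4 : Cyc B.1 c.l.1 B.2 := (c.W.mem (i + 1)).2.2
  obtain ⟨F1, F2⟩ := hpB.2.2.1
  -- F1 : Cyc p.1 p.2 B.1, F2 : Cyc p.1 B.1 B.2
  obtain ⟨φ, -, -, g3, g4, -⟩ := hB3 p.1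
  have n1 : c.l.2 ≠ p.1 := (hne _ _ _ m1).1.symm
  have n2 : p.2 ≠ p.1 := (hne _ _ _ m1).2.2
  have n3 : B.1 ≠ p.1 := (hne _ _ _ F2).1.symm
  have n4 : B.2 ≠ p.1 := (hne _ _ _ F2).2.2
  have n5 : c.l.1 ≠ p.1 := (hne _ _ _ m2).2.1
  have q1 : φ c.l.2 < φ p.2 := (g3 _ _ n1 n2).1 m1
  have q2 : φ p.2 < φ c.l.1 := (g3 _ _ n2 n5).1 (hrot _ _ _ (hrot _ _ _ m2))
  have q3 : φ p.2 < φ B.1 := (g3 _ _ n2 n3).1 F1
  have q4 : φ B.1 < φ B.2 := (g3 _ _ n3 n4).1 F2
  have q5 : φ B.1 < φ c.l.1 ∧ φ c.l.1 < φ B.2 := by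
    rcases (g4 _ _ _ n3 n5 n4).1 m4 with h | h | h
    · exact h
    · linarith [h.1, h.2]
    · linarith [h.1, h.2]
  have hpBne : p ≠ B := by
    intro h
    rw [← h] at q3 n3
    exact n3 rfl
  have hOne : ∀ x, c.One i x ↔ (x = p ∨ x = B ∨ Cyc p.1 B.1 x.1) := fun x => Iff.rfl
  have hZero : ∀ x, c.Zero i x ↔ (x = p ∨ x = B ∨ Cyc B.1 p.1 x.1) := fun x => Iff.rfl
  -- other leaves
  have hother : v ≠ p → v ≠ B → v.1 ≠ p.1 ∧ v.2 ≠ p.1 ∧ φ p.2 < φ v.1 ∧ φ v.1 < φ v.2 ∧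
      (φ v.2 < φ B.1 ∨ φ B.2 < φ v.1) := by
    intro h1 h2
    have hpv : c.X.S.CoPl p v := by
      rcases hv with h | h
      · exact absurd h h1
      · exact h
    have hBv : c.X.S.CoPl B v := htri p B v hpB hpv h2.symm
    obtain ⟨E1, E2⟩ := hpv.2.2.1
    obtain ⟨E3, E4⟩ := hBv.2.2.1
    have k1 : v.1 ≠ p.1 := (hne _ _ _ E2).1.symm
    have k2 : v.2 ≠ p.1 := (hne _ _ _ E2).2.2
    have k3 : φ p.2 < φ v.1 := (g3 _ _ n2 k1).1 E1
    have k4 : φ v.1 < φ v.2 := (g3 _ _ k1 k2).1 E2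
    have k5 := (g4 _ _ _ n3 n4 k1).1 E3
    have k6 := (g4 _ _ _ n3 k1 k2).1 E4
    refine ⟨k1, k2, k3, k4, ?_⟩
    rcases k5 with h | h | h
    · right; exact h.2
    · linarith [h.1, h.2]
    · left
      rcases k6 with h' | h' | h'
      · linarith [h'.1, h.1]
      · exact h'.2
      · linarith [h'.1, h'.2, h.1]
  have hBl : ∀ x : Bd, x ≠ p.1 → (Behind c.l x ↔ (φ x < φ c.l.2 ∨ φ c.l.1 < φ x)) := by
    intro x hx
    have h1 : Behind c.l x ↔ Cyc c.l.1 x c.l.2 := Iff.rfl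
    rw [h1, g4 _ _ _ n5 hx n1]
    constructor
    · rintro (h | h | h)
      · linarith [h.1, h.2]
      · exact Or.inl h.1
      · exact Or.inr h.2
    · rintro (h | h)
      · exact Or.inr (Or.inl ⟨h, by linarith⟩)
      · exact Or.inr (Or.inr ⟨by linarith, h⟩)
  have hpbeh : Behind c.l p.1 := by
    have h1 : Cyc p.1 c.l.2 c.l.1 := (g3 _ _ n1 n5).2 (by linarith)
    exact hrot _ _ _ (hrot _ _ _ h1)
  have hBbeh : Behind c.l B.2 := (hBl _ n4).2 (Or.inr q5.2)
  have hOne2 : v ≠ p → v ≠ B → (c.One i v ↔ φ B.2 < φ v.1) := by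
    intro h1 h2
    obtain ⟨k1, k2, k3, k4, k5⟩ := hother h1 h2
    rw [hOne]
    constructor
    · rintro (h | h | h)
      · exact absurd h h1
      · exact absurd h h2
      · have h3 := (g3 _ _ n3 k1).1 h
        rcases k5 with h4 | h4
        · linarith
        · exact h4
    · intro h
      exact Or.inr (Or.inr ((g3 _ _ n3 k1).2 (by linarith)))
  have hZero2 : v ≠ p → v ≠ B → (c.Zero i v ↔ φ v.2 < φ B.1) := by
    intro h1 h2
    obtain ⟨k1, k2, k3, k4, k5⟩ := hother h1 h2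
    rw [hZero]
    constructor
    · rintro (h | h | h)
      · exact absurd h h1
      · exact absurd h h2
      · have h3 := (g3 _ _ k1 n3).1 (hrot _ _ _ h)
        rcases k5 with h4 | h4
        · exact h4
        · linarith
    · intro h
      refine Or.inr (Or.inr ?_)
      exact hrot _ _ _ (hrot _ _ _ ((g3 _ _ k1 n3).2 (by linarith)))
  refine ⟨?_, ?_, ?_, hpBne, ?_⟩
  · by_cases h1 : v = p
    · refine iff_of_true (Or.inl ?_) ((hOne v).2 (Or.inl h1))
      rw [h1]; exact hpbeh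
    by_cases h2 : v = B
    · refine iff_of_true (Or.inr ?_) ((hOne v).2 (Or.inr (Or.inl h2)))
      rw [h2]; exact hBbeh
    obtain ⟨k1, k2, k3, k4, k5⟩ := hother h1 h2
    rw [hOne2 h1 h2, hBl _ k1, hBl _ k2]
    constructor
    · rintro ((h | h) | (h | h)) <;> rcases k5 with h3 | h3 <;> linarith [q5.1, q5.2]
    · intro h
      exact Or.inl (Or.inr (by linarith [q5.2]))
  · by_cases h1 : v = p
    · exact Or.inl ((hOne v).2 (Or.inl h1))
    by_cases h2 : v = B
    · exact Or.inl ((hOne v).2 (Or.inr (Or.inl h2)))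
    obtain ⟨k1, k2, k3, k4, k5⟩ := hother h1 h2
    rw [hOne2 h1 h2, hZero2 h1 h2]
    tauto
  · intro ho hz
    by_contra hcon
    push Not at hcon
    obtain ⟨h1, h2⟩ := hcon
    obtain ⟨k1, k2, k3, k4, k5⟩ := hother h1 h2
    rw [hOne2 h1 h2] at ho
    rw [hZero2 h1 h2] at hz
    linarith
  · intro h1 h2
    obtain ⟨k1, k2, k3, k4, k5⟩ := hother h1 h2
    refine ⟨?_, ?_⟩
    · rw [hBl _ k1, hBl _ k2]
      constructor
      · rintro (h | h)
        · linarith
        · right; linarith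
      · rintro (h | h)
        · linarith
        · right
          rcases k5 with h3 | h3
          · linarith [q5.1]
          · linarith [q5.2]
    · intro z hz
      rw [hOne2 h1 h2]
      show 0 < side z c.l.1 c.l.2 ↔ _
      rcases k5 with h3 | h3
      · -- in front of `l`
        have hF : Facing v c.l := by
          refine ⟨?_, ?_⟩
          · rw [g4 _ _ _ k1 k2 n5]
            exact Or.inl ⟨k4, by linarith [q5.1]⟩
          · rw [g4 _ _ _ k1 n5 n1]
            exact Or.inr (Or.inr ⟨by linarith, by linarith [q5.1]⟩)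
        have h4 := hPT3.2 v c.l z hF hz.ge
        constructor
        · intro h; linarith
        · intro h; linarith
      · have hI : Inside v c.l := by
          refine ⟨?_, ?_⟩
          · rw [g4 _ _ _ n5 k1 k2]
            exact Or.inl ⟨by linarith [q5.2], k4⟩
          · rw [g4 _ _ _ n5 k2 n1]
            exact Or.inr (Or.inr ⟨by linarith, by linarith [q5.2]⟩)
        have h4 := hPT3.1 v c.l z hI hz.ge
        exact iff_of_true h4 h3

end AdSBend
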