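import Pool.Agent.helper73.AD.GW1

/-!
Module WE2 of the project ad (MP_a29257_gt): hexagons in the plaque `i`.
-/

open scoped MatrixGroups LinearAlgebra.Projectivization BigOperators
open Matrix UpperHalfPlane
open Pool.Agent.helper73.AD (PS Word Arc sg Cone)

namespace AdSBend

open LeafSystem

theorem WE2_neg_smul (g : SL(2, ℝ)) (x : Bd) : (-g) • x = g • x := by
  induction x using Projectivization.ind with
  | h v hv =>
    rw [Projectivization.smul_mk, Projectivization.smul_mk, Projectivization.mk_eq_mk_iff']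
    refine ⟨-1, ?_⟩
    ext i
    simp [Matrix.SpecialLinearGroup.smul_def]

theorem WE2_peq {g h : SL(2, ℝ)} (H : PEq g h) (p : Bd × Bd) : ga g p = ga h p := by
  rcases H with rfl | rfl
  · rfl
  · show (_, _) = (_, _)
    rw [WE2_neg_smul, WE2_neg_smul]

theorem WE2_ga_mul (g h : SL(2, ℝ)) (p : Bd × Bd) : ga (g * h) p = ga g (ga h p) := by
  show (_, _) = (_, _)
  rw [mul_smul, mul_smul]

theorem WE2_ga_one (p : Bd × Bd) : ga (1 : SL(2, ℝ)) p = p := by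
  show (_, _) = _
  rw [one_smul, one_smul]

theorem WE2_inv_ga (g : SL(2, ℝ)) (p : Bd × Bd) : ga g⁻¹ (ga g p) = p := by
  rw [← WE2_ga_mul, inv_mul_cancel, WE2_ga_one]

theorem WE2_ga_inv (g : SL(2, ℝ)) (p : Bd × Bd) : ga g (ga g⁻¹ p) = p := by
  rw [← WE2_ga_mul, mul_inv_cancel, WE2_ga_one]

theorem WE2_gen (hG2 : GM2_stmt) {Γ : Subgroup SL(2, ℝ)} (hΓ : IsClosedSurfaceGroup Γ)
    {y : Bd × Bd} (hy : IsClosedGeodesic Γ y.1 y.2) {γ : SL(2, ℝ)} (hγ : γ ∈ Γ) (p : Bd × Bd) :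
    ga (gen Γ (ga γ y)) (ga γ p) = ga γ (ga (gen Γ y) p) := by
  have h := (hG2 Γ hΓ).2.1 y hy γ hγ
  rw [WE2_peq h, ← WE2_ga_mul, inv_mul_cancel_right, WE2_ga_mul]

/-- the arc between the leaves `p` and `B`, with flags `u`, `v` -/
def WE2_P {Γ : Subgroup SL(2, ℝ)} (S : LeafSystem Γ) (p B u v : Bd × Bd) : Prop :=
  ((∃ x, S.Hex p B x ∨ S.Hex B p x) ∧ u = B ∧ v = p) ∨
    (∃ x y, S.Hex p x y ∧ B = ga (gen Γ y) p ∧ u = y ∧ v = y)

theorem WE2_P_ga (hH1 : HX1_stmt) (hG2 : GM2_stmt) {Γ : Subgroup SL(2, ℝ)}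
    (hΓ : IsClosedSurfaceGroup Γ) (S : LeafSystem Γ) {p B u v : Bd × Bd} {γ : SL(2, ℝ)}
    (hγ : γ ∈ Γ) (h : WE2_P S p B u v) : WE2_P S (ga γ p) (ga γ B) (ga γ u) (ga γ v) := by
  have heq := (hH1 Γ hΓ S).2.2.2.1
  rcases h with ⟨⟨x, hx⟩, rfl, rfl⟩ | ⟨x, y, hx, hB, rfl, rfl⟩
  · left
    refine ⟨⟨ga γ x, ?_⟩, rfl, rfl⟩
    rcases hx with hx | hx
    · exact Or.inl (heq γ hγ _ _ _ hx)
    · exact Or.inr (heq γ hγ _ _ _ hx)
  · right
    refine ⟨ga γ x, _, heq γ hγ _ _ _ hx, ?_, rfl, rfl⟩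
    rw [WE2_gen hG2 hΓ (S.closed _ hx.2.2.1.1) hγ, hB]

theorem WE2_all (hH1 : HX1_stmt) (hG1 : GM1_stmt) (hG2 : GM2_stmt) {Γ : Subgroup SL(2, ℝ)}
    {J K : Type} (c : WCtx Γ J K) (i : ℤ) :
    WE2_P c.X.S (c.W.A i) (sw (c.W.A (i + 1))) (c.W.U i) (c.W.V (i + 1)) := by
  have hl : c.l ∈ c.X.S'.L := c.X.D'.memP c.k
  have hgl : gen Γ c.l ∈ Γ := (hG1 Γ c.hΓ c.l (c.X.S'.closed _ hl)).1
  set N : ℤ := (c.w.n : ℤ) + 1 with hN
  have hNpos : 0 < N := by omega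
  set Q : ℤ → Prop := fun i =>
    WE2_P c.X.S (c.W.A i) (sw (c.W.A (i + 1))) (c.W.U i) (c.W.V (i + 1)) with hQ
  have hper : ∀ j, c.W.A (j + N) = ga (gen Γ c.l) (c.W.A j) ∧
      c.W.U (j + N) = ga (gen Γ c.l) (c.W.U j) ∧ c.W.V (j + N) = ga (gen Γ c.l) (c.W.V j) := by
    intro j
    have e : j + N = j + (c.X.w c.k).n + 1 := by
      rw [hN, ← add_assoc]; rfl
    rw [e]
    exact ⟨c.W.perA j, c.W.perU j, c.W.perV j⟩
  -- base
  have hbase : ∀ j : ℤ, 0 ≤ j → j < N → Q j := by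
    intro j h0 h1
    have hj : j.toNat < c.w.n + 1 := by omega
    have ha := c.W.arc ⟨j.toNat, hj⟩
    have e : ((⟨j.toNat, hj⟩ : Fin (c.w.n + 1)).val : ℤ) = j := by
      show (j.toNat : ℤ) = j
      exact Int.toNat_of_nonneg h0
    rw [e] at ha
    rcases ha with ⟨x, hx, hu, hv, -⟩ | ⟨x, y, hx, hsw, hu, hv, -⟩
    · exact Or.inl ⟨⟨x, hx⟩, hu, hv⟩
    · exact Or.inr ⟨x, y, hx, hsw, hu, hv⟩
  have hup : ∀ j, Q j → Q (j + N) := by
    intro j hj
    have h := WE2_P_ga hH1 hG2 c.hΓ c.X.S hgl hj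
    obtain ⟨p1, p2, -⟩ := hper j
    obtain ⟨q1, -, q3⟩ := hper (j + 1)
    show WE2_P c.X.S (c.W.A (j + N)) (sw (c.W.A (j + N + 1))) (c.W.U (j + N))
      (c.W.V (j + N + 1))
    have e : j + N + 1 = j + 1 + N := by ring
    rw [e, p1, q1, p2, q3]
    exact h
  have hdown : ∀ j, Q (j + N) → Q j := by
    intro j hj
    have h := WE2_P_ga hH1 hG2 c.hΓ c.X.S (Γ.inv_mem hgl) hj
    obtain ⟨p1, p2, -⟩ := hper j
    obtain ⟨q1, -, q3⟩ := hper (j + 1)
    have e : j + N + 1 = j + 1 + N := by ring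
    rw [e, p1, q1, p2, q3] at h
    have e2 : sw (ga (gen Γ c.l) (c.W.A (j + 1))) = ga (gen Γ c.l) (sw (c.W.A (j + 1))) := rfl
    rw [e2, WE2_inv_ga, WE2_inv_ga, WE2_inv_ga, WE2_inv_ga] at h
    exact h
  have hall : ∀ (m : ℕ) (j : ℤ), 0 ≤ j → j < N → Q (j + m * N) ∧ Q (j - m * N) := by
    intro m j h0 h1
    induction m with
    | zero => simpa using hbase j h0 h1
    | succ m ih =>
      constructor
      · have := hup _ ih.1
        have e : j + (m : ℤ) * N + N = j + ((m + 1 : ℕ) : ℤ) * N := by push_cast; ring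
        rwa [e] at this
      · apply hdown
        have e : j - ((m + 1 : ℕ) : ℤ) * N + N = j - (m : ℤ) * N := by push_cast; ring
        rw [e]
        exact ih.2
  have h0 := Int.emod_nonneg i hNpos.ne'
  have h1 := Int.emod_lt_of_pos i hNpos
  have h2 := Int.emod_add_mul_ediv i N
  rcases le_or_gt 0 (i / N) with h3 | h3
  · have := (hall (i / N).toNat (i % N) h0 h1).1
    rw [Int.toNat_of_nonneg h3] at this
    have e : i % N + i / N * N = i := by linarith [mul_comm (i / N) N]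
    rwa [e] at this
  · have := (hall (-(i / N)).toNat (i % N) h0 h1).2
    rw [Int.toNat_of_nonneg (by omega)] at this
    have e : i % N - -(i / N) * N = i := by linarith [mul_comm (i / N) N]
    rwa [e] at this

theorem WE2 (hB3 : BD3_stmt) (hB4 : BD4_stmt) (hB12 : BD12_stmt) (hG1 : GM1_stmt)
    (hG2 : GM2_stmt) (hG3 : GM3_stmt) (hP2 : PN2_stmt) (hH1 : HX1_stmt) (hH6 : HX6_stmt)
    (hH7 : HX7_stmt) (hE1 : WE1_stmt) : WE2_stmt := by
  intro Γ J K c i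
  have hΓ := c.hΓ
  have hS := c.X.pants
  obtain ⟨hsym, -, htri⟩ := hP2 Γ hΓ c.X.S
  obtain ⟨hne, hcrot, hasy, htot, htr, -⟩ := id hB4
  obtain ⟨hrot, hsh, -, heq, huniq, -, -⟩ := hH1 Γ hΓ c.X.S
  obtain ⟨-, h7⟩ := hH7 Γ hΓ c.X.S hS
  obtain ⟨-, -, -, -, -, -, -, -, -, f10, f11⟩ := id hB12
  have hP := WE2_all hH1 hG1 hG2 c i
  have hpB : c.X.S.CoPl (c.W.A i) (sw (c.W.A (i + 1))) := c.W.copl i
  have hW1 := fun v => hE1 Γ J K c i v
  set p := c.W.A i with hp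
  set B := sw (c.W.A (i + 1)) with hB
  -- leaves of the plaque
  have hpl : ∀ a b, (a = p ∨ c.X.S.CoPl p a) → (b = p ∨ c.X.S.CoPl p b) →
      b = a ∨ c.X.S.CoPl a b := by
    intro a b ha hb
    by_cases h : b = a
    · exact Or.inl h
    right
    rcases ha with rfl | ha
    · rcases hb with rfl | hb
      · exact absurd rfl h
      · exact hb
    · rcases hb with rfl | hb
      · exact hsym _ _ ha
      · exact htri p a b ha hb (fun e => h e.symm)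
  -- symmetry of linking
  have hlsym : ∀ x y x' y' : Bd, Linked x y x' y' → Linked y x x' y' := fun x y x' y' h =>
    (f11 _ _ _ _).1 h
  have hlsym2 : ∀ x y x' y' : Bd, Linked x y x' y' → Linked x y y' x' := fun x y x' y' h =>
    (f10 _ _ _ _).1 ((f11 _ _ _ _).1 ((f10 _ _ _ _).1 h))
  -- unlinked seams
  have hun : ∀ a b x s t w, (c.X.S.Hex a b x ∨ c.X.S.Hex b a x) →
      (c.X.S.Hex s t w ∨ c.X.S.Hex t s w) → (a = p ∨ c.X.S.CoPl p a) →
      (b = p ∨ c.X.S.CoPl p b) → (s = p ∨ c.X.S.CoPl p s) → (t = p ∨ c.X.S.CoPl p t) →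
      ¬ Linked a.1 b.1 s.1 t.1 := by
    intro a b x s t w h1 h2 ha hb hs ht hl
    rcases h1 with h1 | h1 <;> rcases h2 with h2 | h2
    · exact (h7 _ _ _ _ _ _ h1 h2 (hpl a s ha hs)).2 hl
    · exact (h7 _ _ _ _ _ _ h1 h2 (hpl a t ha ht)).2 (hlsym2 _ _ _ _ hl)
    · exact (h7 _ _ _ _ _ _ h1 h2 (hpl b s hb hs)).2 (hlsym _ _ _ _ hl)
    · exact (h7 _ _ _ _ _ _ h1 h2 (hpl b t hb ht)).2 (hlsym _ _ _ _ (hlsym2 _ _ _ _ hl))
  -- leaves of a triple
  have hleaf : ∀ τ : Tri, c.InPl i τ → (τ.1 = p ∨ c.X.S.CoPl p τ.1) ∧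
      (τ.2.1 = p ∨ c.X.S.CoPl p τ.2.1) ∧ (τ.2.2 = p ∨ c.X.S.CoPl p τ.2.2) := by
    intro τ hτ
    obtain ⟨h1, h2⟩ := hτ
    have k1 : c.X.S.CoPl τ.1 τ.2.1 := h1.1
    have k2 : c.X.S.CoPl τ.1 τ.2.2 := hsym _ _ h1.2.2.1
    refine ⟨h2, ?_, ?_⟩
    · rcases h2 with h2 | h2
      · have h2' : τ.1 = p := h2
        rw [← h2']; exact Or.inr k1
      · by_cases e : τ.2.1 = p
        · exact Or.inl e
        · exact Or.inr (htri τ.1 p τ.2.1 (hsym _ _ h2) k1 (fun h => e h.symm))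
    · rcases h2 with h2 | h2
      · have h2' : τ.1 = p := h2
        rw [← h2']; exact Or.inr k2
      · by_cases e : τ.2.2 = p
        · exact Or.inl e
        · exact Or.inr (htri τ.1 p τ.2.2 (hsym _ _ h2) k2 (fun h => e h.symm))
  have hOne : ∀ x, c.One i x ↔ (x = p ∨ x = B ∨ Cyc p.1 B.1 x.1) := fun x => Iff.rfl
  have hZero : ∀ x, c.Zero i x ↔ (x = p ∨ x = B ∨ Cyc B.1 p.1 x.1) := fun x => Iff.rfl
  -- a triple that is neither of type one nor of type zero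
  have hmix : ∀ τ : Tri, c.InPl i τ →
      ((c.One i τ.1 ∧ c.One i τ.2.1 ∧ c.One i τ.2.2) ∨
        (c.Zero i τ.1 ∧ c.Zero i τ.2.1 ∧ c.Zero i τ.2.2)) ∨
      ∃ t1 t2 t3 : Bd × Bd, ((c.X.S.Hex t3 t1 t2 ∧
          (τ = (t3, t1, t2) ∨ τ = (t1, t2, t3) ∨ τ = (t2, t3, t1))) ∨
          (c.X.S.Hex t3 t2 t1 ∧ (τ = (t3, t2, t1) ∨ τ = (t2, t1, t3) ∨ τ = (t1, t3, t2)))) ∧
        Cyc p.1 B.1 t1.1 ∧ Cyc B.1 p.1 t2.1 ∧
        (t1 = p ∨ c.X.S.CoPl p t1) ∧ (t2 = p ∨ c.X.S.CoPl p t2) := by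
    intro τ hτ
    obtain ⟨l1, l2, l3⟩ := hleaf τ hτ
    obtain ⟨a, b, d⟩ := τ
    simp only at l1 l2 l3 ⊢
    have hh : c.X.S.Hex a b d := hτ.1
    have hh2 := hrot _ _ _ hh
    have hh3 := hrot _ _ _ hh2
    have key : ∀ v, (v = p ∨ c.X.S.CoPl p v) → ¬ c.Zero i v → Cyc p.1 B.1 v.1 := by
      intro v hv hz
      have h1 : c.One i v := (hW1 v hv).2.1.resolve_right hz
      rcases (hOne v).1 h1 with h | h | h
      · exact absurd ((hZero v).2 (Or.inl h)) hz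
      · exact absurd ((hZero v).2 (Or.inr (Or.inl h))) hz
      · exact h
    have key2 : ∀ v, (v = p ∨ c.X.S.CoPl p v) → ¬ c.One i v → Cyc B.1 p.1 v.1 := by
      intro v hv hz
      have h1 : c.Zero i v := (hW1 v hv).2.1.resolve_left hz
      rcases (hZero v).1 h1 with h | h | h
      · exact absurd ((hOne v).2 (Or.inl h)) hz
      · exact absurd ((hOne v).2 (Or.inr (Or.inl h))) hz
      · exact h
    by_cases ha1 : c.One i a
    · by_cases hb1 : c.One i b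
      · by_cases hd1 : c.One i d
        · exact Or.inl (Or.inl ⟨ha1, hb1, hd1⟩)
        · by_cases ha0 : c.Zero i a
          · by_cases hb0 : c.Zero i b
            · have hd0 := (hW1 d l3).2.1.resolve_left hd1
              exact Or.inl (Or.inr ⟨ha0, hb0, hd0⟩)
            · right
              exact ⟨b, d, a, Or.inl ⟨hh, Or.inl rfl⟩, key b l2 hb0, key2 d l3 hd1, l2, l3⟩
          · right
            exact ⟨a, d, b, Or.inr ⟨hh2, Or.inr (Or.inr rfl)⟩, key a l1 ha0, key2 d l3 hd1,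
              l1, l3⟩
      · by_cases ha0 : c.Zero i a
        · by_cases hd0 : c.Zero i d
          · have hb0 := (hW1 b l2).2.1.resolve_left hb1
            exact Or.inl (Or.inr ⟨ha0, hb0, hd0⟩)
          · right
            exact ⟨d, b, a, Or.inr ⟨hh, Or.inl rfl⟩, key d l3 hd0, key2 b l2 hb1, l3, l2⟩
        · right
          exact ⟨a, b, d, Or.inl ⟨hh3, Or.inr (Or.inl rfl)⟩, key a l1 ha0, key2 b l2 hb1, l1,
            l2⟩
    · by_cases hb0 : c.Zero i b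
      · by_cases hd0 : c.Zero i d
        · have ha0 := (hW1 a l1).2.1.resolve_left ha1
          exact Or.inl (Or.inr ⟨ha0, hb0, hd0⟩)
        · right
          exact ⟨d, a, b, Or.inl ⟨hh2, Or.inr (Or.inr rfl)⟩, key d l3 hd0, key2 a l1 ha1, l3,
            l1⟩
      · right
        exact ⟨b, a, d, Or.inr ⟨hh3, Or.inr (Or.inl rfl)⟩, key b l2 hb0, key2 a l1 ha1, l2, l1⟩
  -- seams of the pair `t1`, `t2`
  have hseam : ∀ t1 t2 t3, (c.X.S.Hex t3 t1 t2 ∨ c.X.S.Hex t3 t2 t1) →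
      (c.X.S.Hex t1 t2 t3 ∨ c.X.S.Hex t2 t1 t3) := by
    intro t1 t2 t3 h
    rcases h with h | h
    · exact Or.inl (hrot _ _ _ h)
    · exact Or.inr (hrot _ _ _ h)
  rcases hP with ⟨⟨x, hx⟩, hu, hv⟩ | ⟨x, y, hx, hBy, hu, hv⟩
  · left
    refine ⟨⟨x, hx, hu, hv⟩, ?_⟩
    intro τ hτ
    rcases hmix τ hτ with h | ⟨t1, t2, t3, ht, c1, c2, l1, l2⟩
    · exact h
    · exfalso
      apply hun p B x t1 t2 t3 hx (hseam t1 t2 t3 (ht.imp And.left And.left)) (Or.inl rfl)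
        (Or.inr hpB) l1 l2
      exact Or.inr ⟨hcrot _ _ _ c2, c1⟩
  · right
    have hy := hrot _ _ _ (hrot _ _ _ hx)
    -- Hex y p x
    have hyB : c.X.S.Hex y x B := by
      have := hsh _ _ _ hy
      rwa [← hBy] at this
    have hByx : c.X.S.Hex B y x := hrot _ _ _ (hrot _ _ _ hyB)
    have hxBy : c.X.S.Hex x B y := hrot _ _ _ hyB
    have hgy : gen Γ y ∈ Γ := (hG1 Γ hΓ y (c.X.S.closed _ hy.1.1)).1
    have o1 : Cyc y.1 p.1 x.1 := hy.2.2.2.1
    have o2 : Cyc y.1 x.1 B.1 := hyB.2.2.2.1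
    have o3 := htr _ _ _ _ o1 o2
    -- Cyc y p B, Cyc p x B
    have cOne : Cyc p.1 B.1 y.1 := hcrot _ _ _ o3.1
    have cZero : Cyc B.1 p.1 x.1 := hcrot _ _ _ (hcrot _ _ _ o3.2)
    have hCy : c.X.S.CoPl p y := hsym _ _ hx.2.2.1
    have hCx : c.X.S.CoPl p x := hx.1
    have hOy : c.One i y := (hOne y).2 (Or.inr (Or.inr cOne))
    have hZx : c.Zero i x := (hZero x).2 (Or.inr (Or.inr cZero))
    have hyp : y ≠ p := by
      rintro h
      rw [h] at cOne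
      exact (hne _ _ _ cOne).2.2 rfl
    have hyB' : y ≠ B := by
      rintro h
      rw [h] at cOne
      exact (hne _ _ _ cOne).2.1 rfl
    have hxp : x ≠ p := by
      rintro h
      rw [h] at cZero
      exact (hne _ _ _ cZero).2.1 rfl
    have hxB' : x ≠ B := by
      rintro h
      rw [h] at cZero
      exact (hne _ _ _ cZero).2.2 rfl
    have hZy : ¬ c.Zero i y := by
      intro h
      rcases (hW1 y (Or.inr hCy)).2.2.1 hOy h with h' | h'
      · exact hyp h'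
      · exact hyB' h'
    have hOx : ¬ c.One i x := by
      intro h
      rcases (hW1 x (Or.inr hCx)).2.2.1 h hZx with h' | h'
      · exact hxp h'
      · exact hxB' h'
    have hnseam : ¬ c.X.S.Seam p B := by
      rintro ⟨r, hr | hr⟩
      · exact (hH6 Γ hΓ c.X.S hS p B r hr (gen Γ y) hgy).1 hBy.symm
      · exact (hH6 Γ hΓ c.X.S hS p r B (hrot _ _ _ hr) (gen Γ y) hgy).2 hBy.symm
    refine ⟨hnseam, x, y, hx, hBy, hByx, hu, hv, hOy, hZy, hZx, hOx, ?_⟩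
    intro τ hτ
    rcases hmix τ hτ with h | ⟨t1, t2, t3, ht, c1, c2, l1, l2⟩
    · rcases h with h | h
      · exact Or.inl h
      · exact Or.inr (Or.inl h)
    -- coordinates
    obtain ⟨φ, -, hinj, g3, g4, -⟩ := hB3 p.1
    have n1 : B.1 ≠ p.1 := (hne _ _ _ cOne).1.symm
    have n2 : y.1 ≠ p.1 := (hne _ _ _ cOne).2.2
    have n3 : x.1 ≠ p.1 := (hne _ _ _ cZero).2.1.symm
    have n4 : t1.1 ≠ p.1 := (hne _ _ _ c1).2.2
    have n5 : t2.1 ≠ p.1 := (hne _ _ _ c2).2.1.symm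
    have q1 : φ B.1 < φ y.1 := (g3 _ _ n1 n2).1 cOne
    have q2 : φ x.1 < φ B.1 := (g3 _ _ n3 n1).1 o3.2
    have q3 : φ B.1 < φ t1.1 := (g3 _ _ n1 n4).1 c1
    have c2' : Cyc p.1 t2.1 B.1 := hcrot _ _ _ c2
    have q4 : φ t2.1 < φ B.1 := (g3 _ _ n5 n1).1 c2'
    have hst := hseam t1 t2 t3 (ht.imp And.left And.left)
    have lp : p = p ∨ c.X.S.CoPl p p := Or.inl rfl
    -- `t1 = y`
    have e1 : t1.1 = y.1 := by
      apply hinj _ _ n4 n2
      rcases lt_trichotomy (φ t1.1) (φ y.1) with h | h | h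
      · exfalso
        apply hun B y x t1 t2 t3 (Or.inl hByx) hst (Or.inr hpB) (Or.inr hCy) l1 l2
        refine Or.inl ⟨?_, ?_⟩
        · rw [g4 _ _ _ n1 n4 n2]
          exact Or.inl ⟨q3, h⟩
        · rw [g4 _ _ _ n1 n2 n5]
          exact Or.inr (Or.inr ⟨q4, q1⟩)
      · exact h
      · exfalso
        apply hun p y x t1 t2 t3 (Or.inr hy) hst lp (Or.inr hCy) l1 l2
        refine Or.inr ⟨?_, ?_⟩
        · exact (g3 _ _ n5 n2).2 (by linarith)
        · exact (g3 _ _ n2 n4).2 h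
    have e2 : t2.1 = x.1 := by
      apply hinj _ _ n5 n3
      rcases lt_trichotomy (φ t2.1) (φ x.1) with h | h | h
      · exfalso
        apply hun p x y t1 t2 t3 (Or.inl hx) hst lp (Or.inr hCx) l1 l2
        refine Or.inr ⟨?_, ?_⟩
        · exact (g3 _ _ n5 n3).2 h
        · exact (g3 _ _ n3 n4).2 (by linarith)
      · exact h
      · exfalso
        apply hun x B y t1 t2 t3 (Or.inl hxBy) hst (Or.inr hCx) (Or.inr hpB) l1 l2
        refine Or.inr ⟨?_, ?_⟩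
        · rw [g4 _ _ _ n3 n5 n1]
          exact Or.inl ⟨h, q4⟩
        · rw [g4 _ _ _ n3 n1 n4]
          exact Or.inl ⟨q2, q3⟩
    have hmem : ∀ t, (t = p ∨ c.X.S.CoPl p t) → t ∈ c.X.S.L := by
      intro t ht
      rcases ht with rfl | ht
      · exact hpB.1
      · exact ht.2.1
    have heqv : ∀ a b : Bd × Bd, a ∈ c.X.S.L → b ∈ c.X.S.L → a.1 = b.1 → a = b := by
      intro a b ha hb h
      have k1 := c.X.S.closed a ha
      have k2 := c.X.S.closed b hb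
      rw [← h] at k2
      exact Prod.ext h (hG3 Γ hΓ _ _ _ k1 k2)
    have f1 : t1 = y := heqv _ _ (hmem t1 l1) hCy.2.1 e1
    have f2 : t2 = x := heqv _ _ (hmem t2 l2) hCx.2.1 e2
    subst f1 f2
    rcases ht with ⟨ht, hτ'⟩ | ⟨ht, hτ'⟩
    · -- Hex t3 y x : third leaf B
      have h1 := hrot _ _ _ ht
      have h2 : t3 = B := huniq _ _ _ _ h1 hyB
      subst h2
      rcases hτ' with h | h | h
      · exact Or.inr (Or.inr (Or.inr (Or.inr (Or.inr (Or.inl h)))))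
      · exact Or.inr (Or.inr (Or.inr (Or.inr (Or.inr (Or.inr (Or.inr h))))))
      · exact Or.inr (Or.inr (Or.inr (Or.inr (Or.inr (Or.inr (Or.inl h))))))
    · -- Hex t3 x y : third leaf p
      have h1 := hrot _ _ _ ht
      have h2 : t3 = p := huniq _ _ _ _ h1 (hrot _ _ _ hx)
      subst h2
      rcases hτ' with h | h | h
      · exact Or.inr (Or.inr (Or.inl h))
      · exact Or.inr (Or.inr (Or.inr (Or.inr (Or.inl h))))
      · exact Or.inr (Or.inr (Or.inr (Or.inl h)))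

end AdSBend
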