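import Pool.Agent.helper73.AD.GW1

/-!
Module WE3 of the project ad (MP_a29257_gt): the seam terms and the sides not crossed by `l` give
the variation of the arc.
-/

open scoped MatrixGroups LinearAlgebra.Projectivization BigOperators
open Matrix UpperHalfPlane
open Pool.Agent.helper73.AD (PS Word Arc sg Cone)

namespace AdSBend

open LeafSystem

theorem WE3_fs (S : Set Tri) (F : Finset Tri) (f : Tri → ℝ) (h1 : ∀ τ ∈ F, τ ∈ S)
    (h2 : ∀ τ ∈ S, τ ∉ F → f τ = 0) : ∑ᶠ τ ∈ S, f τ = ∑ τ ∈ F, f τ := by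
  apply finsum_mem_eq_sum_of_inter_support_eq
  ext τ
  simp only [Set.mem_inter_iff, Function.mem_support, Finset.mem_coe]
  constructor
  · rintro ⟨k1, k2⟩
    refine ⟨?_, k2⟩
    by_contra h
    exact k2 (h2 τ k1 h)
  · rintro ⟨k1, k2⟩
    exact ⟨h1 τ k1, k2⟩

theorem WE3_ip_smul (X Y : M2) (t : ℝ) : ip X (t • Y) = t * ip X Y := by
  unfold ip
  rw [Matrix.mul_smul, Matrix.trace_smul, smul_eq_mul]
  ring

theorem WE3_ip_add (X Y Z : M2) : ip X (Y + Z) = ip X Y + ip X Z := by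
  unfold ip
  rw [Matrix.mul_add, Matrix.trace_add]
  ring

theorem WE3_ip_neg (X Y : M2) : ip X (-Y) = -ip X Y := by
  unfold ip
  rw [Matrix.mul_neg, Matrix.trace_neg]
  ring

theorem WE3 (hA1 : WA1_stmt) (hA4 : WA4_stmt) (hR2 : WR2b_stmt) (hE1 : WE1_stmt)
    (hE2 : WE2_stmt) (hFB4 : FB4_stmt) (hH1 : HX1_stmt) (hH6 : HX6_stmt) (hP2 : PN2_stmt)
    (hB4 : BD4_stmt) (hG1 : GM1_stmt) : WE3_stmt := by
  intro Γ J K c BB x' i
  have hΓ := c.hΓ
  have hS := c.X.pants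
  obtain ⟨hsym, -, htri⟩ := hP2 Γ hΓ c.X.S
  obtain ⟨hne, hcrot, hasy, htot, htr, -⟩ := id hB4
  obtain ⟨hrot, hsh, -, heq, huniq, -, -⟩ := hH1 Γ hΓ c.X.S
  obtain ⟨-, -, hR3, -, -, -⟩ := hR2 Γ hΓ c.X.S hS
  have hpB : c.X.S.CoPl (c.W.A (i.val : ℤ)) (sw (c.W.A ((i.val : ℤ) + 1))) := c.W.copl _
  have hW1 := fun v => hE1 Γ J K c (i.val : ℤ) v
  have hW2 := hE2 Γ J K c (i.val : ℤ)
  have harc := c.W.arc i
  have hpB' : c.W.A (i.val : ℤ) ≠ sw (c.W.A ((i.val : ℤ) + 1)) :=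
    (hW1 _ (Or.inl rfl)).2.2.2.1
  have hmemA : c.W.A ((i.val : ℤ) + 1) ∈ c.X.S.L := (c.W.mem _).1
  have hclsB : c.cls (sw (c.W.A ((i.val : ℤ) + 1))) = c.cls (c.W.A ((i.val : ℤ) + 1)) :=
    c.X.D.cls_sw _ hmemA
  have hmu : c.mu x' i.val (c.w.A i) = arcV Γ c.ρ c.z x' (c.W.A (i.val : ℤ))
    (c.W.U (i.val : ℤ)) (sw (c.W.A ((i.val : ℤ) + 1))) ((c.X.w c.k).A i) := rfl
  set I : ℤ := (i.val : ℤ) with hI
  set p := c.W.A I with hp
  set B := sw (c.W.A (I + 1)) with hB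
  -- leaves of the plaque
  have hpl : ∀ a b, (a = p ∨ c.X.S.CoPl p a) → (b = a ∨ c.X.S.CoPl a b) →
      (b = p ∨ c.X.S.CoPl p b) := by
    intro a b ha hb
    rcases hb with rfl | hb
    · exact ha
    rcases ha with rfl | ha
    · exact Or.inr hb
    · by_cases e : b = p
      · exact Or.inl e
      · exact Or.inr (htri a p b (hsym _ _ ha) hb (fun h => e h.symm))
  have hleaf : ∀ τ : Tri, c.InPl I τ → (τ.1 = p ∨ c.X.S.CoPl p τ.1) ∧
      (τ.2.1 = p ∨ c.X.S.CoPl p τ.2.1) ∧ (τ.2.2 = p ∨ c.X.S.CoPl p τ.2.2) := by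
    intro τ hτ
    have h2 : τ.1 = p ∨ c.X.S.CoPl p τ.1 := hτ.2
    exact ⟨h2, hpl _ _ h2 (Or.inr hτ.1.1), hpl _ _ h2 (Or.inr (hsym _ _ hτ.1.2.2.1))⟩
  have hmir : ∀ τ : Tri, c.InPl I τ → c.InPl I (mir Γ τ) := by
    intro τ hτ
    exact ⟨(hR3 τ hτ.1).2.1, (hleaf τ hτ).2.2⟩
  have hmm : ∀ τ : Tri, c.InPl I τ → mir Γ (mir Γ τ) = τ := fun τ hτ =>
    (hR3 τ hτ.1).2.2.2.1
  have hOne : ∀ x, c.One I x ↔ (x = p ∨ x = B ∨ Cyc p.1 B.1 x.1) := fun x => Iff.rfl
  have hZero : ∀ x, c.Zero I x ↔ (x = p ∨ x = B ∨ Cyc B.1 p.1 x.1) := fun x => Iff.rfl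
  -- values of the indicators
  have hch1 : ∀ τ : Tri, c.InPl I τ → (c.One I τ.1 ∧ c.One I τ.2.1 ∧ c.One I τ.2.2) →
      chT c.l τ = 1 := by
    intro τ hτ h
    obtain ⟨l1, l2, l3⟩ := hleaf τ hτ
    unfold chT
    rw [if_pos]
    exact ⟨(hW1 _ l1).1.2 h.1, (hW1 _ l2).1.2 h.2.1, (hW1 _ l3).1.2 h.2.2⟩
  have hch0 : ∀ τ : Tri, c.InPl I τ → ¬ (c.One I τ.1 ∧ c.One I τ.2.1 ∧ c.One I τ.2.2) →
      chT c.l τ = 0 := by
    intro τ hτ h
    obtain ⟨l1, l2, l3⟩ := hleaf τ hτ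
    unfold chT
    rw [if_neg]
    rintro ⟨h1, h2, h3⟩
    exact h ⟨(hW1 _ l1).1.1 h1, (hW1 _ l2).1.1 h2, (hW1 _ l3).1.1 h3⟩
  have hchi1 : ∀ τ : Tri, c.InPl I τ → τ.1 ≠ p → τ.1 ≠ B → c.One I τ.1 →
      chi c.l (BB.y τ) = 1 := by
    intro τ hτ h1 h2 h3
    have := ((hW1 _ (hleaf τ hτ).1).2.2.2.2 h1 h2).2 _ (BB.y_on τ hτ.1)
    unfold chi
    rw [if_pos (this.2 h3)]
  have hchi0 : ∀ τ : Tri, c.InPl I τ → τ.1 ≠ p → τ.1 ≠ B → ¬ c.One I τ.1 →
      chi c.l (BB.y τ) = 0 := by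
    intro τ hτ h1 h2 h3
    have := ((hW1 _ (hleaf τ hτ).1).2.2.2.2 h1 h2).2 _ (BB.y_on τ hτ.1)
    unfold chi
    rw [if_neg (fun h => h3 (this.1 h))]
  have hboth : ∀ v, (v = p ∨ c.X.S.CoPl p v) → c.One I v → c.Zero I v → v = p ∨ v = B :=
    fun v hv h1 h2 => (hW1 v hv).2.2.1 h1 h2
  -- coefficients
  set D : J → J → J → ℝ := fun a b d => dsd (c.z.1 a) (c.z.1 b) (c.z.1 d) (x' a) (x' b) (x' d)
    with hD
  have hDs : ∀ a b d, D a b d = D b a d := fun a b d => hA4.2.1 _ _ _ _ _ _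
  have hxL : ∀ v ∈ c.X.S.L, xL Γ c.ρ v = c.z.1 (c.cls v) := fun v hv =>
    (((hFB4 Γ hΓ c.X.S J c.X.D c.ρ c.adm).2.2.1 c.z c.coord).2 v hv).symm
  have hds : ∀ a b d, a ∈ c.X.S.L → b ∈ c.X.S.L → d ∈ c.X.S.L →
      ds Γ c.ρ (fun p => x' (c.cls p)) a b d = D (c.cls a) (c.cls b) (c.cls d) := by
    intro a b d ha hb hd
    unfold ds
    rw [hxL a ha, hxL b hb, hxL d hd]
  have hmemL : ∀ τ : Tri, c.X.S.IsHex τ → τ.1 ∈ c.X.S.L ∧ τ.2.1 ∈ c.X.S.L ∧ τ.2.2 ∈ c.X.S.L :=
    fun τ hτ => ⟨hτ.1.1, hτ.2.1.1, hτ.2.2.1.1⟩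
  have hclsg : ∀ a v, a ∈ c.X.S.L → v ∈ c.X.S.L → c.cls (ga (gen Γ a) v) = c.cls v := by
    intro a v ha hv
    exact c.X.D.cls_ga _ (hG1 Γ hΓ a (c.X.S.closed _ ha)).1 v hv
  have hsneg : ∀ a b x, c.X.S.Hex a b x → c.s b a = -c.s a b := by
    intro a b x h
    exact ((hA1 Γ hΓ c.X.S c.ρ c.adm).2 a b x h).2.2.2.2.1
  -- contribution of a pair of mirror triples
  set f : Tri → ℝ := fun τ => (1 / 2) * ds Γ c.ρ (fun p => x' (c.cls p)) τ.1 τ.2.2 τ.2.1 *
        (chT c.l τ - chT c.l (mir Γ τ)) * ip (c.a c.l) (c.s τ.1 τ.2.2) with hf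
  have hpair : ∀ τ : Tri, c.InPl I τ → chT c.l τ = 0 → chT c.l (mir Γ τ) = 1 →
      f τ + f (mir Γ τ) =
        -(D (c.cls τ.1) (c.cls τ.2.2) (c.cls τ.2.1) * ip (c.a c.l) (c.s τ.1 τ.2.2)) := by
    intro τ hτ h0 h1
    obtain ⟨m1, m2, m3⟩ := hmemL τ hτ.1
    obtain ⟨n1, n2, n3⟩ := hmemL _ (hmir τ hτ).1
    have e1 : f τ = -(1 / 2) * (D (c.cls τ.1) (c.cls τ.2.2) (c.cls τ.2.1) *
        ip (c.a c.l) (c.s τ.1 τ.2.2)) := by
      rw [hf]
      simp only
      rw [h0, h1, hds _ _ _ m1 m3 m2]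
      ring
    have e2 : f (mir Γ τ) = -(1 / 2) * (D (c.cls τ.1) (c.cls τ.2.2) (c.cls τ.2.1) *
        ip (c.a c.l) (c.s τ.1 τ.2.2)) := by
      rw [hf]
      simp only
      rw [hmm τ hτ, h0, h1, hds _ _ _ n1 n3 n2]
      show 1 / 2 * D (c.cls τ.2.2) (c.cls τ.1) (c.cls (ga (gen Γ τ.1) τ.2.1)) * (1 - 0) *
        ip (c.a c.l) (c.s τ.2.2 τ.1) = _
      rw [hclsg _ _ m1 m2, hDs]
      have hh : c.X.S.Hex τ.2.2 τ.1 τ.2.1 := hrot _ _ _ (hrot _ _ _ hτ.1)
      have hs : c.s τ.2.2 τ.1 = -c.s τ.1 τ.2.2 := by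
        rw [hsneg _ _ _ hh, neg_neg]
      rw [hs, WE3_ip_neg]
      ring
    rw [e1, e2]
    ring
  rcases hW2 with ⟨⟨x, hx, hu, hv⟩, hall⟩ | ⟨hns, x, y, hx, hBy, hByx, hu, hv, hOy, hZy, hZx,
      hOx, hall⟩
  · -- seam type
    obtain ⟨q, hq⟩ : ∃ q, c.X.S.Hex p q B := by
      rcases hx with hx | hx
      · have h1 : c.X.S.IsHex (B, x, p) := hrot _ _ _ hx
        exact ⟨_, (hR3 _ h1).2.1⟩
      · exact ⟨x, hrot _ _ _ hx⟩
    set τ1 : Tri := (p, q, B) with hτ1
    have hI1 : c.InPl I τ1 := ⟨hq, Or.inl rfl⟩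
    have hI2 := hmir τ1 hI1
    have hqZ : ¬ c.One I q := by
      have h1 : Cyc p.1 q.1 B.1 := hq.2.2.2.1
      have h2 : c.Zero I q := (hZero q).2 (Or.inr (Or.inr (hcrot _ _ _ (hcrot _ _ _ h1))))
      intro h
      rcases hboth q (Or.inr hq.1) h h2 with h3 | h3
      · rw [h3] at h1; exact (hne _ _ _ h1).1 rfl
      · rw [h3] at h1; exact (hne _ _ _ h1).2.1 rfl
    have hc1 : chT c.l τ1 = 0 := hch0 τ1 hI1 (fun h => hqZ h.2.1)
    have hOp : c.One I p := (hOne p).2 (Or.inl rfl)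
    have hOB : c.One I B := (hOne B).2 (Or.inr (Or.inl rfl))
    have hc2 : chT c.l (mir Γ τ1) = 1 := by
      apply hch1 _ hI2
      rcases hall _ hI2 with h | h
      · exact h
      · refine ⟨hOB, ?_, hOp⟩
        -- the second leaf is strictly on the side one
        have h1 : Cyc B.1 (ga (gen Γ p) q).1 p.1 := hI2.1.2.2.2.1
        exact (hOne _).2 (Or.inr (Or.inr (hcrot _ _ _ (hcrot _ _ _ h1))))
    -- all other triples
    have hcls : ∀ τ : Tri, c.InPl I τ → chT c.l τ ≠ chT c.l (mir Γ τ) →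
        τ = τ1 ∨ τ = mir Γ τ1 := by
      intro τ hτ hne'
      have hτ' := hmir τ hτ
      -- the common leaves are `p` and `B`
      have key : ((τ.1 = p ∨ τ.1 = B) ∧ (τ.2.2 = p ∨ τ.2.2 = B)) := by
        obtain ⟨l1, l2, l3⟩ := hleaf τ hτ
        rcases hall τ hτ with h | h <;> rcases hall _ hτ' with h' | h'
        · exact absurd ((hch1 τ hτ h).trans (hch1 _ hτ' h').symm) hne'
        · exact ⟨hboth _ l1 h.1 h'.2.2, hboth _ l3 h.2.2 h'.1⟩
        · exact ⟨hboth _ l1 h'.2.2 h.1, hboth _ l3 h'.1 h.2.2⟩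
        · by_cases g : (c.One I τ.1 ∧ c.One I τ.2.1 ∧ c.One I τ.2.2)
          · exact ⟨hboth _ l1 g.1 h.1, hboth _ l3 g.2.2 h.2.2⟩
          · by_cases g' : (c.One I (mir Γ τ).1 ∧ c.One I (mir Γ τ).2.1 ∧ c.One I (mir Γ τ).2.2)
            · exact ⟨hboth _ l1 g'.2.2 h.1, hboth _ l3 g'.1 h.2.2⟩
            · exact absurd ((hch0 τ hτ g).trans (hch0 _ hτ' g').symm) hne'
      obtain ⟨a, b, d⟩ := τ
      simp only at key
      have hh : c.X.S.Hex a b d := hτ.1
      have had : a ≠ d := by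
        rintro rfl
        exact (hne _ _ _ hh.2.2.2.1).2.2 rfl
      rcases key with ⟨k1 | k1, k2 | k2⟩
      · exact absurd (k1.trans k2.symm) had
      · left
        subst k1 k2
        have : b = q := huniq _ _ _ _ (hrot _ _ _ (hrot _ _ _ hh)) (hrot _ _ _ (hrot _ _ _ hq))
        rw [this]
      · right
        subst k1 k2
        have h2 : c.X.S.Hex B (ga (gen Γ p) q) p := hI2.1
        have : b = ga (gen Γ p) q :=
          huniq _ _ _ _ (hrot _ _ _ (hrot _ _ _ hh)) (hrot _ _ _ (hrot _ _ _ h2))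
        rw [this]
        rfl
      · exact absurd (k1.trans k2.symm) had
    have hneτ : τ1 ≠ mir Γ τ1 := by
      intro h
      have : p = B := congrArg (fun t : Tri => t.1) h
      exact hpB' this
    have hside : ∀ τ : Tri, c.InPl I τ → τ.1 ≠ p → τ.1 ≠ B →
        chT c.l τ = chi c.l (BB.y τ) := by
      intro τ hτ h1 h2
      have l1 := (hleaf τ hτ).1
      rcases hall τ hτ with h | h
      · rw [hch1 τ hτ h, hchi1 τ hτ h1 h2 h.1]
      · have h3 : ¬ c.One I τ.1 := by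
          intro h3
          rcases hboth _ l1 h3 h.1 with h4 | h4
          · exact h1 h4
          · exact h2 h4
        rw [hch0 τ hτ (fun h4 => h3 h4.1), hchi0 τ hτ h1 h2 h3]
    refine ⟨?_, ?_, ?_⟩
    · apply Set.Finite.subset (Set.toFinite {τ1, mir Γ τ1})
      rintro τ ⟨h1, h2⟩
      rcases hcls τ h1 h2 with h | h
      · left; exact h
      · right; exact h
    · convert Set.finite_empty
      ext τ
      simp only [Set.mem_setOf_eq, Set.mem_empty_iff_false, iff_false]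
      rintro ⟨h1, h2, h3, h4⟩
      exact h4 (hside τ h1 h2 h3)
    · classical
      have s1 : ∑ᶠ τ ∈ {τ : Tri | c.InPl I τ}, f τ = f τ1 + f (mir Γ τ1) := by
        rw [WE3_fs _ {τ1, mir Γ τ1}]
        · rw [Finset.sum_pair hneτ]
        · intro τ hτ
          simp only [Finset.mem_insert, Finset.mem_singleton] at hτ
          rcases hτ with rfl | rfl
          · exact hI1
          · exact hI2
        · intro τ hτ hτ2
          simp only [Finset.mem_insert, Finset.mem_singleton] at hτ2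
          have : chT c.l τ = chT c.l (mir Γ τ) := by
            by_contra h
            exact hτ2 (hcls τ hτ h)
          rw [hf]
          simp only
          rw [this]
          ring
      have s2 : ∑ᶠ τ ∈ {τ : Tri | c.InPl I τ ∧ τ.1 ≠ p ∧ τ.1 ≠ B},
          (x' (c.cls τ.1) / 2) * (chT c.l τ - chi c.l (BB.y τ)) * ip (c.a c.l) (c.a τ.1) = 0 := by
        rw [WE3_fs _ ∅]
        · simp
        · intro τ hτ; simp at hτ
        · rintro τ ⟨h1, h2, h3⟩ _
          rw [hside τ h1 h2 h3]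
          ring
      rw [s1, s2, hpair τ1 hI1 hc1 hc2, hmu, add_zero]
      -- the word
      have hxq : c.cls x = c.cls q := by
        rcases hx with hx | hx
        · have h2 : c.X.S.Hex B (ga (gen Γ p) q) p := hI2.1
          have : x = ga (gen Γ p) q := huniq _ _ _ _ hx (hrot _ _ _ (hrot _ _ _ h2))
          rw [this]
          exact hclsg _ _ hq.1.1 hq.2.1.1
        · have : x = q := huniq _ _ _ _ hx (hrot _ _ _ (hrot _ _ _ hq))
          rw [this]
      rcases harc with ⟨x₂, hx₂, hu₂, hv₂, hA⟩ | ⟨x₂, y₂, hx₂, hB₂, hu₂, hv₂, hA⟩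
      · rw [hA]
        have hxx : c.cls x₂ = c.cls q := by
          rcases hx₂ with hx₂ | hx₂
          · have h2 : c.X.S.Hex B (ga (gen Γ p) q) p := hI2.1
            have : x₂ = ga (gen Γ p) q := huniq _ _ _ _ hx₂ (hrot _ _ _ (hrot _ _ _ h2))
            rw [this]
            exact hclsg _ _ hq.1.1 hq.2.1.1
          · have : x₂ = q := huniq _ _ _ _ hx₂ (hrot _ _ _ (hrot _ _ _ hq))
            rw [this]
        show _ = -ip (c.a c.l) (D (c.cls p) (c.cls (c.W.A (I + 1))) (c.cls x₂) •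
          sV Γ c.ρ p (c.W.U I))
        rw [WE3_ip_smul, hxx, ← hclsB, hu]
        rfl
      · exfalso
        have hy₂ : y₂ ∈ c.X.S.L := hx₂.2.2.1.1
        have hgy := (hG1 Γ hΓ y₂ (c.X.S.closed _ hy₂)).1
        have hB₂' : B = ga (gen Γ y₂) p := hB₂
        rcases hx with hx | hx
        · exact (hH6 Γ hΓ c.X.S hS _ _ _ hx _ hgy).1 hB₂'.symm
        · exact (hH6 Γ hΓ c.X.S hS _ _ _ (hrot _ _ _ hx) _ hgy).2 hB₂'.symm
  · -- wave type
    have hy := hrot _ _ _ (hrot _ _ _ hx)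
    -- Hex y p x
    have hyB : c.X.S.Hex y x B := hrot _ _ _ hByx
    have hxBy : c.X.S.Hex x B y := hrot _ _ _ hyB
    have hCy : c.X.S.CoPl p y := hsym _ _ hx.2.2.1
    have hCx : c.X.S.CoPl p x := hx.1
    have hOp : c.One I p := (hOne p).2 (Or.inl rfl)
    have hOB : c.One I B := (hOne B).2 (Or.inr (Or.inl rfl))
    have hyp : y ≠ p := fun h => hZy ((hZero y).2 (Or.inl h))
    have hyB' : y ≠ B := fun h => hZy ((hZero y).2 (Or.inr (Or.inl h)))
    have hxp : x ≠ p := fun h => hOx ((hOne x).2 (Or.inl h))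
    have hxB' : x ≠ B := fun h => hOx ((hOne x).2 (Or.inr (Or.inl h)))
    have hxy : x ≠ y := fun h => hOx (h ▸ hOy)
    set τ1 : Tri := (p, x, y) with hτ1
    set τ2 : Tri := (y, x, B) with hτ2
    have hI1 : c.InPl I τ1 := ⟨hx, Or.inl rfl⟩
    have hI2 : c.InPl I τ2 := ⟨hyB, Or.inr hCy⟩
    have hI3 : c.InPl I (y, p, x) := ⟨hy, Or.inr hCy⟩
    have hM1 := hmir τ1 hI1
    have hM2 := hmir τ2 hI2
    have hc1 : chT c.l τ1 = 0 := hch0 τ1 hI1 (fun h => hOx h.2.1)
    have hc2 : chT c.l τ2 = 0 := hch0 τ2 hI2 (fun h => hOx h.2.1)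
    have hc3 : chT c.l (y, p, x) = 0 := hch0 _ hI3 (fun h => hOx h.2.2)
    have hd1 : chT c.l (mir Γ τ1) = 1 := by
      apply hch1 _ hM1
      rcases hall _ hM1 with h | h | h | h | h | h | h | h
      · exact h
      · exact absurd h.1 hZy
      · exact absurd (congrArg (fun t : Tri => t.1) h) hyp
      · exact absurd (congrArg (fun t : Tri => t.2.2) h) (fun e => hxp e.symm)
      · exact absurd (congrArg (fun t : Tri => t.1) h) (fun e => hxy e.symm)
      · exact absurd (congrArg (fun t : Tri => t.1) h) hyB'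
      · exact absurd (congrArg (fun t : Tri => t.1) h) (fun e => hxy e.symm)
      · exact absurd (congrArg (fun t : Tri => t.2.2) h) hpB'
    have hd2 : chT c.l (mir Γ τ2) = 1 := by
      apply hch1 _ hM2
      rcases hall _ hM2 with h | h | h | h | h | h | h | h
      · exact h
      · exact absurd h.2.2 hZy
      · exact absurd (congrArg (fun t : Tri => t.1) h) (fun e => hpB' e.symm)
      · exact absurd (congrArg (fun t : Tri => t.1) h) (fun e => hyB' e.symm)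
      · exact absurd (congrArg (fun t : Tri => t.1) h) (fun e => hxB' e.symm)
      · exact absurd (congrArg (fun t : Tri => t.2.2) h) (fun e => hxy e.symm)
      · exact absurd (congrArg (fun t : Tri => t.1) h) (fun e => hxB' e.symm)
      · exact absurd (congrArg (fun t : Tri => t.1) h) (fun e => hyB' e.symm)
    -- a triple that is not all one, with first and third leaf one
    have hcls0 : ∀ τ : Tri, c.InPl I τ → chT c.l τ = 0 → chT c.l (mir Γ τ) = 1 →
        τ = τ1 ∨ τ = τ2 := by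
      intro τ hτ h0 h1
      have hτ' := hmir τ hτ
      obtain ⟨l1, l2, l3⟩ := hleaf τ hτ
      have hnot : ¬ (c.One I τ.1 ∧ c.One I τ.2.1 ∧ c.One I τ.2.2) := by
        intro h
        have := hch1 τ hτ h
        rw [h0] at this
        norm_num at this
      have hyes : (c.One I (mir Γ τ).1 ∧ c.One I (mir Γ τ).2.1 ∧ c.One I (mir Γ τ).2.2) := by
        by_contra h
        have := hch0 _ hτ' h
        rw [h1] at this
        norm_num at this
      have o1 : c.One I τ.1 := hyes.2.2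
      have o3 : c.One I τ.2.2 := hyes.1
      rcases hall τ hτ with h | h | h | h | h | h | h | h
      · exact absurd h hnot
      · exfalso
        -- Seam p B
        have e1 := hboth _ l1 o1 h.1
        have e3 := hboth _ l3 o3 h.2.2
        obtain ⟨a, b, d⟩ := τ
        simp only at e1 e3
        have hh : c.X.S.Hex a b d := hτ.1
        have had : a ≠ d := by
          rintro rfl
          exact (hne _ _ _ hh.2.2.2.1).2.2 rfl
        rcases e1 with e1 | e1 <;> rcases e3 with e3 | e3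
        · exact had (e1.trans e3.symm)
        · subst e1 e3
          exact hns ⟨b, Or.inr (hrot _ _ _ (hrot _ _ _ hh))⟩
        · subst e1 e3
          exact hns ⟨b, Or.inl (hrot _ _ _ (hrot _ _ _ hh))⟩
        · exact had (e1.trans e3.symm)
      · exact Or.inl h
      · rw [h] at o3; exact absurd o3 hOx
      · rw [h] at o1; exact absurd o1 hOx
      · rw [h] at o3; exact absurd o3 hOx
      · rw [h] at o1; exact absurd o1 hOx
      · exact Or.inr h
    have hval : ∀ τ : Tri, chT c.l τ = 0 ∨ chT c.l τ = 1 := by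
      intro τ
      unfold chT
      split_ifs
      · right; rfl
      · left; rfl
    have hcls : ∀ τ : Tri, c.InPl I τ → chT c.l τ ≠ chT c.l (mir Γ τ) →
        τ = τ1 ∨ τ = mir Γ τ1 ∨ τ = τ2 ∨ τ = mir Γ τ2 := by
      intro τ hτ hne'
      rcases hval τ with h | h <;> rcases hval (mir Γ τ) with h' | h'
      · exact absurd (h.trans h'.symm) hne'
      · rcases hcls0 τ hτ h h' with h2 | h2
        · exact Or.inl h2
        · exact Or.inr (Or.inr (Or.inl h2))
      · have hτ' := hmir τ hτ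
        have h3 := hcls0 _ hτ' h' (by rw [hmm τ hτ]; exact h)
        rcases h3 with h3 | h3
        · right; left
          rw [← h3, hmm τ hτ]
        · right; right; right
          rw [← h3, hmm τ hτ]
      · exact absurd (h.trans h'.symm) hne'
    -- side terms
    have hside : ∀ τ : Tri, c.InPl I τ → τ.1 ≠ p → τ.1 ≠ B → τ ≠ (y, p, x) → τ ≠ τ2 →
        chT c.l τ = chi c.l (BB.y τ) := by
      intro τ hτ h1 h2 h3 h4
      have l1 := (hleaf τ hτ).1
      rcases hall τ hτ with h | h | h | h | h | h | h | h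
      · rw [hch1 τ hτ h, hchi1 τ hτ h1 h2 h.1]
      · have h5 : ¬ c.One I τ.1 := by
          intro h5
          rcases hboth _ l1 h5 h.1 with h6 | h6
          · exact h1 h6
          · exact h2 h6
        rw [hch0 τ hτ (fun h6 => h5 h6.1), hchi0 τ hτ h1 h2 h5]
      · rw [h] at h1; exact absurd rfl h1
      · exact absurd h h3
      · have h5 : ¬ c.One I τ.1 := by rw [h]; exact hOx
        rw [hch0 τ hτ (fun h6 => h5 h6.1), hchi0 τ hτ h1 h2 h5]
      · rw [h] at h2; exact absurd rfl h2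
      · have h5 : ¬ c.One I τ.1 := by rw [h]; exact hOx
        rw [hch0 τ hτ (fun h6 => h5 h6.1), hchi0 τ hτ h1 h2 h5]
      · exact absurd h h4
    have n12 : τ1 ≠ mir Γ τ1 := fun h => hyp (congrArg (fun t : Tri => t.1) h).symm
    have n13 : τ1 ≠ τ2 := fun h => hyp (congrArg (fun t : Tri => t.1) h).symm
    have n14 : τ1 ≠ mir Γ τ2 := fun h => hpB' (congrArg (fun t : Tri => t.1) h)
    have n23 : mir Γ τ1 ≠ τ2 := fun h => hpB' (congrArg (fun t : Tri => t.2.2) h)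
    have n24 : mir Γ τ1 ≠ mir Γ τ2 := fun h => hyB' (congrArg (fun t : Tri => t.1) h)
    have n34 : τ2 ≠ mir Γ τ2 := fun h => hyB' (congrArg (fun t : Tri => t.1) h)
    have n32 : ((y, p, x) : Tri) ≠ τ2 := fun h => hxB' (congrArg (fun t : Tri => t.2.2) h)
    refine ⟨?_, ?_, ?_⟩
    · apply Set.Finite.subset (Set.toFinite {τ1, mir Γ τ1, τ2, mir Γ τ2})
      rintro τ ⟨h1, h2⟩
      rcases hcls τ h1 h2 with h | h | h | h <;> rw [h] <;> simp
    · apply Set.Finite.subset (Set.toFinite {((y, p, x) : Tri), τ2})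
      rintro τ ⟨h1, h2, h3, h4⟩
      by_contra hcon
      simp only [Set.mem_insert_iff, Set.mem_singleton_iff, not_or] at hcon
      exact h4 (hside τ h1 h2 h3 hcon.1 hcon.2)
    · classical
      have s1 : ∑ᶠ τ ∈ {τ : Tri | c.InPl I τ}, f τ =
          (f τ1 + f (mir Γ τ1)) + (f τ2 + f (mir Γ τ2)) := by
        rw [WE3_fs _ {τ1, mir Γ τ1, τ2, mir Γ τ2}]
        · rw [Finset.sum_insert, Finset.sum_insert, Finset.sum_pair n34]
          · ring
          · simp [n23, n24]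
          · simp [n12, n13, n14]
        · intro τ hτ
          simp only [Finset.mem_insert, Finset.mem_singleton] at hτ
          rcases hτ with rfl | rfl | rfl | rfl
          · exact hI1
          · exact hM1
          · exact hI2
          · exact hM2
        · intro τ hτ hτ2
          simp only [Finset.mem_insert, Finset.mem_singleton] at hτ2
          have : chT c.l τ = chT c.l (mir Γ τ) := by
            by_contra h
            exact hτ2 (hcls τ hτ h)
          rw [hf]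
          simp only
          rw [this]
          ring
      have s2 : ∑ᶠ τ ∈ {τ : Tri | c.InPl I τ ∧ τ.1 ≠ p ∧ τ.1 ≠ B},
          (x' (c.cls τ.1) / 2) * (chT c.l τ - chi c.l (BB.y τ)) * ip (c.a c.l) (c.a τ.1) =
            -(x' (c.cls y) * ip (c.a c.l) (c.a y)) := by
        rw [WE3_fs _ {((y, p, x) : Tri), τ2}]
        · rw [Finset.sum_pair n32, hc3, hc2, hchi1 _ hI3 hyp hyB' hOy,
            hchi1 _ hI2 hyp hyB' hOy]
          show x' (c.cls y) / 2 * (0 - 1) * ip (c.a c.l) (c.a y) +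
            x' (c.cls y) / 2 * (0 - 1) * ip (c.a c.l) (c.a y) = _
          ring
        · intro τ hτ
          simp only [Finset.mem_insert, Finset.mem_singleton] at hτ
          rcases hτ with rfl | rfl
          · exact ⟨hI3, hyp, hyB'⟩
          · exact ⟨hI2, hyp, hyB'⟩
        · rintro τ ⟨h1, h2, h3⟩ h4
          simp only [Finset.mem_insert, Finset.mem_singleton, not_or] at h4
          rw [hside τ h1 h2 h3 h4.1 h4.2]
          ring
      rw [s1, s2, hpair τ1 hI1 hc1 hd1, hpair τ2 hI2 hc2 hd2, hmu]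
      have hclsBp : c.cls B = c.cls p := by
        rw [hBy]
        exact hclsg _ _ hy.1.1 hpB.1
      rcases harc with ⟨x₂, hx₂, hu₂, hv₂, hA⟩ | ⟨x₂, y₂, hx₂, hB₂, hu₂, hv₂, hA⟩
      · exfalso
        exact hns ⟨x₂, hx₂⟩
      · have hu₂' : c.W.U I = y₂ := hu₂
        have hyy : y₂ = y := by rw [← hu₂', hu]
        subst hyy
        have hx₂' : c.X.S.Hex p x₂ y₂ := hx₂
        have hxx : x₂ = x := huniq _ _ _ _ (hrot _ _ _ (hrot _ _ _ hx₂')) hy
        rw [hA]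
        show _ = -ip (c.a c.l) (D (c.cls p) (c.cls y₂) (c.cls x₂) • sV Γ c.ρ p (c.W.U I) +
          x' (c.cls y₂) • aV Γ c.ρ (c.W.U I) +
          D (c.cls p) (c.cls y₂) (c.cls x₂) • sV Γ c.ρ (c.W.U I) B)
        rw [hu, hxx, WE3_ip_add, WE3_ip_add, WE3_ip_smul, WE3_ip_smul, WE3_ip_smul]
        show -(D (c.cls p) (c.cls y₂) (c.cls x) * ip (c.a c.l) (c.s p y₂)) +
          -(D (c.cls y₂) (c.cls B) (c.cls x) * ip (c.a c.l) (c.s y₂ B)) +
          -(x' (c.cls y₂) * ip (c.a c.l) (c.a y₂)) =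
          -(D (c.cls p) (c.cls y₂) (c.cls x) * ip (c.a c.l) (c.s p y₂) +
            x' (c.cls y₂) * ip (c.a c.l) (c.a y₂) +
            D (c.cls p) (c.cls y₂) (c.cls x) * ip (c.a c.l) (c.s y₂ B))
        rw [hclsBp, hDs (c.cls y₂) (c.cls p)]
        ring

end AdSBend
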