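import Pool.Agent.helper73.AD.GW1

/-!
Module WF3 of the project ad (MP_a29257_gt): a plaque that is not crossed by `b` lies on one side
of it.
-/

open scoped MatrixGroups LinearAlgebra.Projectivization BigOperators
open Matrix UpperHalfPlane
open Pool.Agent.helper73.AD (PS Word Arc sg Cone)

namespace AdSBend

open LeafSystem

/-- the chain of the leaves of `S` crossed by `b` -/
structure WF3_Chain {Γ : Subgroup SL(2, ℝ)} (S : LeafSystem Γ) (b : Bd × Bd) where
  A : ℤ → Bd × Bd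
  mem : ∀ i, A i ∈ S.L ∧ Behind (A i) b.2 ∧ Behind (sw (A i)) b.1
  copl : ∀ i, S.CoPl (A i) (sw (A (i + 1)))
  mono : ∀ i j, i < j → Inside (A i) (A j)
  all : ∀ p ∈ S.L, Behind p b.2 → Behind (sw p) b.1 → ∃ i, p = A i

theorem WF3_ga_inv (g : SL(2, ℝ)) (p : Bd × Bd) : ga g (ga g⁻¹ p) = p := by
  show (g • g⁻¹ • p.1, g • g⁻¹ • p.2) = p
  rw [smul_inv_smul, smul_inv_smul]

theorem WF3_inv_ga (g : SL(2, ℝ)) (p : Bd × Bd) : ga g⁻¹ (ga g p) = p := by
  show (g⁻¹ • g • p.1, g⁻¹ • g • p.2) = p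
  rw [inv_smul_smul, inv_smul_smul]

/-- the chain of a translate of `l` -/
theorem WF3_chain (hB2 : BD2_stmt) (hP2 : PN2_stmt) {Γ : Subgroup SL(2, ℝ)} {J K : Type}
    (c : WCtx Γ J K) {γ : SL(2, ℝ)} (hγ : γ ∈ Γ) :
    Nonempty (WF3_Chain c.X.S (ga γ c.l)) := by
  have hW := c.W
  refine ⟨⟨fun i => ga γ (c.W.A i), ?_, ?_, ?_, ?_⟩⟩
  · intro i
    obtain ⟨h1, h2, h3⟩ := c.W.mem i
    exact ⟨c.X.S.inv γ hγ _ h1, (hB2 γ _ _ _).2 h2, (hB2 γ _ _ _).2 h3⟩
  · intro i
    exact (hP2 Γ c.hΓ c.X.S).2.1 γ hγ _ _ (c.W.copl i)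
  · intro i j hij
    obtain ⟨h1, h2⟩ := c.W.mono i j hij
    exact ⟨(hB2 γ _ _ _).2 h1, (hB2 γ _ _ _).2 h2⟩
  · intro p hp h1 h2
    have hγ' : γ⁻¹ ∈ Γ := Γ.inv_mem hγ
    have k1 : Behind (ga γ⁻¹ p) c.l.2 := by
      have := (hB2 γ⁻¹ _ _ _).2 h1
      have e : γ⁻¹ • (ga γ c.l).2 = c.l.2 := inv_smul_smul γ c.l.2
      rw [e] at this
      exact this
    have k2 : Behind (sw (ga γ⁻¹ p)) c.l.1 := by
      have := (hB2 γ⁻¹ _ _ _).2 h2
      have e : γ⁻¹ • (ga γ c.l).1 = c.l.1 := inv_smul_smul γ c.l.1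
      rw [e] at this
      exact this
    obtain ⟨i, hi⟩ := c.W.all (ga γ⁻¹ p) (c.X.S.inv _ hγ' _ hp) k1 k2
    refine ⟨i, ?_⟩
    rw [← hi, WF3_ga_inv]

theorem WF3_core (hB4 : BD4_stmt) (hB12 : BD12_stmt) (hPT1 : PT1_stmt) (hPT2 : PT2_stmt)
    (hPT3 : PT3_stmt) (hPT5 : PT5_stmt) (hG3 : GM3_stmt) (hG5 : GM5_stmt) (hP2 : PN2_stmt)
    (hP4 : PN4_stmt) (hC2 : CH2_stmt) {Γ : Subgroup SL(2, ℝ)} (hΓ : IsClosedSurfaceGroup Γ)
    (S : LeafSystem Γ) (b p : Bd × Bd) (hb : IsClosedGeodesic Γ b.1 b.2) (ch : WF3_Chain S b)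
    (hp : p ∈ S.L)
    (hnc : ¬ ∃ A ∈ S.L, (A = p ∨ S.CoPl A p) ∧ Behind A b.2 ∧ Behind (sw A) b.1) :
    ∀ v, (v = p ∨ S.CoPl p v) → (Behind b v.1 ↔ Behind b p.1) ∧ (Behind b v.2 ↔ Behind b p.1) := by
  obtain ⟨hsym, -, htri⟩ := hP2 Γ hΓ S
  obtain ⟨f1, f2, f3, f4, f5, f6, f7, f8, f9, f10, f11⟩ := id hB12
  obtain ⟨hne, hrot, hasy, htot, htr, -⟩ := id hB4
  have hasw : ∀ (z : ℍ) (q : Bd × Bd), side z q.2 q.1 = - side z q.1 q.2 :=
    fun z q => (hPT1 1 z q.1 q.2).2.2.2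
  have hswap : IsClosedGeodesic Γ b.2 b.1 := by
    obtain ⟨h1, γ, h2, h3, h4, h5, h6⟩ := hb
    exact ⟨h1.symm, γ, h2, h3, h4, h6, h5⟩
  have hbne : b.1 ≠ b.2 := hb.1
  -- `b` is linked with a leaf
  have hlk : ∀ i, Linked b.1 b.2 (ch.A i).1 (ch.A i).2 := fun i =>
    (hC2 b (ch.A i)).2 (Or.inl ⟨(ch.mem i).2.1, (ch.mem i).2.2⟩)
  -- the endpoints of `b` are different from those of the leaves
  have hnb : ∀ v ∈ S.L, b ≠ v := by
    intro v hv h
    have h0 := hlk 0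
    have e1 : b.1 = v.1 := by rw [h]
    have e2 : b.2 = v.2 := by rw [h]
    rw [e1, e2] at h0
    exact S.unlinked v hv _ (ch.mem 0).1 h0
  have hend : ∀ v ∈ S.L, b.1 ≠ v.1 ∧ b.1 ≠ v.2 ∧ b.2 ≠ v.1 ∧ b.2 ≠ v.2 := by
    intro v hv
    have hv' := S.swap v hv
    have c1 := S.closed v hv
    have c2 := S.closed _ hv'
    simp only at c2
    refine ⟨fun h => ?_, fun h => ?_, fun h => ?_, fun h => ?_⟩
    · rw [← h] at c1
      have := hG3 Γ hΓ _ _ _ hb c1
      exact hnb v hv (Prod.ext h this)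
    · rw [← h] at c2
      have := hG3 Γ hΓ _ _ _ hb c2
      exact hnb _ hv' (Prod.ext h this)
    · rw [← h] at c1
      have := hG3 Γ hΓ _ _ _ hswap c1
      exact hnb _ hv' (Prod.ext this h)
    · rw [← h] at c2
      have := hG3 Γ hΓ _ _ _ hswap c2
      exact hnb v hv (Prod.ext this h)
  -- leaves of the plaque are not linked with `b`
  have hunl : ∀ v, (v = p ∨ S.CoPl p v) → v ∈ S.L ∧ ¬ Linked b.1 b.2 v.1 v.2 := by
    intro v hv
    have hvL : v ∈ S.L := by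
      rcases hv with rfl | hv
      · exact hp
      · exact hv.2.1
    refine ⟨hvL, fun hl => ?_⟩
    rcases (hC2 b v).1 hl with ⟨h1, h2⟩ | ⟨h1, h2⟩
    · apply hnc
      refine ⟨v, hvL, ?_, h1, h2⟩
      rcases hv with rfl | hv
      · exact Or.inl rfl
      · exact Or.inr (hsym _ _ hv)
    · obtain ⟨i, hi⟩ := ch.all (sw v) (S.swap v hvL) h1 h2
      have hc := ch.copl (i - 1)
      rw [sub_add_cancel, ← hi] at hc
      have hc' : S.CoPl (ch.A (i - 1)) v := hc
      apply hnc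
      refine ⟨ch.A (i - 1), (ch.mem _).1, ?_, (ch.mem _).2.1, (ch.mem _).2.2⟩
      rcases hv with rfl | hv
      · exact Or.inr hc'
      · by_cases he : ch.A (i - 1) = p
        · exact Or.inl he
        · right
          exact htri v (ch.A (i - 1)) p (hsym _ _ hc') (hsym _ _ hv) he
  -- position of an unlinked leaf
  have hK : ∀ v ∈ S.L, ¬ Linked b.1 b.2 v.1 v.2 → ∀ y : ℍ, side y v.1 v.2 = 0 →
      side y b.1 b.2 ≠ 0 ∧ (Behind b v.1 ↔ 0 < side y b.1 b.2) ∧
        (Behind b v.2 ↔ 0 < side y b.1 b.2) := by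
    intro v hv hl y hy
    obtain ⟨n1, n2, n3, n4⟩ := hend v hv
    have hvne : v.1 ≠ v.2 := (S.closed v hv).1
    have hl' : ¬ Linked v.1 v.2 b.1 b.2 := fun h => hl ((f10 _ _ _ _).1 h)
    have hy' : side y v.2 v.1 = 0 := by rw [hasw, hy, neg_zero]
    rcases f8 v b hvne hbne n1.symm n3.symm n2.symm n4.symm hl' with h | h | h | h
    · -- Inside v b
      have h0 := hPT3.1 v b y h hy.ge
      obtain ⟨g1, g2⟩ := h
      refine ⟨h0.ne', ⟨fun _ => h0, fun _ => ?_⟩, ⟨fun _ => h0, fun _ => g2⟩⟩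
      exact (htr _ _ _ _ g1 g2).1
    · -- Inside b v
      have h' := (f3 b v).1 h
      have h0 := hPT3.1 (v.2, v.1) (b.2, b.1) y h' hy'.ge
      simp only at h0
      rw [hasw] at h0
      obtain ⟨g1, g2⟩ := h
      have h1 : side y b.1 b.2 < 0 := by linarith
      refine ⟨h1.ne, ⟨fun hh => ?_, fun hh => by linarith⟩,
        ⟨fun hh => ?_, fun hh => by linarith⟩⟩
      · exact absurd hh (hasy _ _ _ (hrot _ _ _ g1))
      · exact absurd hh (hasy _ _ _ (htr _ _ _ _ g1 g2).2)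
    · -- Facing v b
      have h1 := hPT3.2 v b y h hy.ge
      obtain ⟨g1, g2⟩ := h
      refine ⟨h1.ne, ⟨fun hh => ?_, fun hh => by linarith⟩,
        ⟨fun hh => ?_, fun hh => by linarith⟩⟩
      · exact absurd hh (hasy _ _ _ (hrot _ _ _ g2))
      · exact absurd hh (hasy _ _ _ (hrot _ _ _ (htr _ _ _ _ g1 g2).2))
    · -- Facing (sw v) (sw b)
      have h0 := hPT3.2 (v.2, v.1) (b.2, b.1) y h hy'.ge
      simp only at h0
      rw [hasw] at h0
      have h1 : 0 < side y b.1 b.2 := by linarith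
      obtain ⟨g1, g2⟩ := h
      simp only at g1 g2
      refine ⟨h1.ne', ⟨fun _ => h1, fun _ => ?_⟩, ⟨fun _ => h1, fun _ => ?_⟩⟩
      · exact hrot _ _ _ (hrot _ _ _ (htr _ _ _ _ g1 g2).2)
      · exact hrot _ _ _ (hrot _ _ _ g2)
  -- position of a leaf of `S` with respect to another one
  have hpos : ∀ u ∈ S.L, ∀ v ∈ S.L, u ≠ v → u ≠ sw v → ∀ y : ℍ, side y v.1 v.2 = 0 →
      (0 < side y u.1 u.2 ∧ (Inside v u ∨ Inside (sw v) u)) ∨
      (side y u.1 u.2 < 0 ∧ (Facing v u ∨ Facing (sw v) u)) := by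
    intro u hu v hv h1 h2 y hy
    have hy' : side y v.2 v.1 = 0 := by rw [hasw, hy, neg_zero]
    have hl' : ¬ Linked v.1 v.2 u.1 u.2 := S.unlinked v hv u hu
    have cu := S.closed u hu
    have cv := S.closed v hv
    have cv' := S.closed _ (S.swap v hv)
    have cu' := S.closed _ (S.swap u hu)
    simp only at cv' cu'
    have m1 : v.1 ≠ u.1 := by
      intro h
      rw [← h] at cu
      exact h1 (Prod.ext h.symm (hG3 Γ hΓ _ _ _ cu cv))
    have m2 : v.1 ≠ u.2 := by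
      intro h
      rw [← h] at cu'
      exact h2 (Prod.ext (hG3 Γ hΓ _ _ _ cu' cv) h.symm)
    have m3 : v.2 ≠ u.1 := by
      intro h
      rw [← h] at cu
      exact h2 (Prod.ext h.symm (hG3 Γ hΓ _ _ _ cu cv'))
    have m4 : v.2 ≠ u.2 := by
      intro h
      rw [← h] at cu'
      exact h1 (Prod.ext (hG3 Γ hΓ _ _ _ cu' cv') h.symm)
    rcases f8 v u cv.1 cu.1 m1 m2 m3 m4 hl' with h | h | h | h
    · exact Or.inl ⟨hPT3.1 v u y h hy.ge, Or.inl h⟩
    · right
      have h' : Facing (sw v) u := by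
        rw [f1, f2]
        exact h
      exact ⟨hPT3.2 (sw v) u y h' hy'.ge, Or.inr h'⟩
    · exact Or.inr ⟨hPT3.2 v u y h hy.ge, Or.inl h⟩
    · left
      have h' : Inside (sw v) u := by
        have := (f2 (sw v) (sw u)).1 h
        exact this
      exact ⟨hPT3.1 (sw v) u y h' hy'.ge, Or.inr h'⟩
  intro v hv
  obtain ⟨hvL, hvl⟩ := hunl v hv
  obtain ⟨-, hpl⟩ := hunl p (Or.inl rfl)
  obtain ⟨y, hy⟩ := hPT5.2.1 p.1 p.2 (S.closed p hp).1
  rcases hv with rfl | hv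
  · obtain ⟨k1, k2, k3⟩ := hK v hvL hvl y hy
    exact ⟨Iff.rfl, k3.trans k2.symm⟩
  obtain ⟨y', hy'⟩ := hPT5.2.1 v.1 v.2 (S.closed v hvL).1
  obtain ⟨k0, k1, k2⟩ := hK p hp hpl y hy
  obtain ⟨k0', k1', k2'⟩ := hK v hvL hvl y' hy'
  suffices hsame : (0 < side y' b.1 b.2 ↔ 0 < side y b.1 b.2) from
    ⟨k1'.trans (hsame.trans k1.symm), k2'.trans (hsame.trans k1.symm)⟩
  by_contra hdiff
  -- a point of `b` on the segment
  obtain ⟨s, hs0, hs1, w, hw, hwb⟩ : ∃ s : ℝ, 0 < s ∧ s < 1 ∧ ∃ w, OnSeg y y' s w ∧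
      side w b.1 b.2 = 0 := by
    set α := side y b.1 b.2 with hα
    set β := side y' b.1 b.2 with hβ
    have hprod : α * β < 0 := by
      rcases lt_or_gt_of_ne k0 with h1 | h1 <;> rcases lt_or_gt_of_ne k0' with h2 | h2
      · exact absurd (iff_of_false (not_lt.2 h2.le) (not_lt.2 h1.le)) hdiff
      · exact mul_neg_of_neg_of_pos h1 h2
      · exact mul_neg_of_pos_of_neg h1 h2
      · exact absurd (iff_of_true h2 h1) hdiff
    have hne0 : α - β ≠ 0 := by
      intro h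
      have : α = β := by linarith
      rw [this] at hprod
      nlinarith [mul_self_nonneg β]
    have hs : 0 < α / (α - β) ∧ α / (α - β) < 1 := by
      rcases lt_or_gt_of_ne k0 with h1 | h1
      · have h2 : 0 < β := by
          by_contra h
          nlinarith [not_lt.1 h]
        have h3 : α - β < 0 := by linarith
        exact ⟨div_pos_of_neg_of_neg h1 h3, by rw [div_lt_one_of_neg h3]; linarith⟩
      · have h2 : β < 0 := by
          by_contra h
          nlinarith [not_lt.1 h]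
        have h3 : 0 < α - β := by linarith
        exact ⟨div_pos h1 h3, by rw [div_lt_one h3]; linarith⟩
    obtain ⟨w, hw⟩ := hPT2.1 y y' (α / (α - β)) hs.1.le hs.2.le
    refine ⟨_, hs.1, hs.2, w, hw, ?_⟩
    rw [hPT2.2.1 y y' w _ hw, ← hα, ← hβ]
    field_simp
    ring
  have hseg : ∀ q : Bd × Bd, side w q.1 q.2 = (1 - s) * side y q.1 q.2 + s * side y' q.1 q.2 :=
    fun q => hPT2.2.1 y y' w s hw q.1 q.2
  have hFpv : Facing p v := hv.2.2.1
  have hFvp : Facing v p := (f1 _ _).1 hFpv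
  -- no leaf separates
  have hsep : ∀ u ∈ S.L, u ≠ p → u ≠ sw p → u ≠ v → u ≠ sw v →
      0 < side y u.1 u.2 → 0 < side y' u.1 u.2 := by
    intro u hu h1 h2 h3 h4 h5
    rcases hpos u hu p hp h1 h2 y hy with ⟨_, h6⟩ | ⟨h6, _⟩
    swap
    · linarith
    rcases hpos u hu v hvL h3 h4 y' hy' with ⟨h7, _⟩ | ⟨_, h7⟩
    · exact h7
    exfalso
    rcases h6 with h6 | h6
    · rcases h7 with h7 | h7
      · exact hv.2.2.2 u hu h6 ((f1 _ _).1 h7)
      · -- Facing (sw v) u : Inside u v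
        have h8 : Inside u v := by
          have := (f2 _ _).1 ((f1 _ _).1 h7)
          exact this
        exact f7 p v ⟨f4 _ _ _ h6 h8, hFpv⟩
    · -- Inside (sw p) u; v is inside sw p
      have h8 : Inside v (sw p) := (f2 _ _).1 hFvp
      have h9 : Inside v u := f4 _ _ _ h8 h6
      rcases h7 with h7 | h7
      · exact f7 v u ⟨h9, h7⟩
      · have h10 : Inside u v := by
          have := (f2 _ _).1 ((f1 _ _).1 h7)
          exact this
        exact f6 v u ⟨h9, h10⟩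
  have hyv : side y v.1 v.2 < 0 := hPT3.2 p v y hFpv hy.ge
  have hy'p : side y' p.1 p.2 < 0 := hPT3.2 v p y' hFvp hy'.ge
  have hwp : side w p.1 p.2 < 0 := by
    rw [hseg, hy]
    nlinarith
  have hwv : side w v.1 v.2 < 0 := by
    rw [hseg, hy']
    nlinarith
  have hwsp : 0 < side w p.2 p.1 := by rw [hasw]; linarith
  have hwsv : 0 < side w v.2 v.1 := by rw [hasw]; linarith
  have hoff : S.OffPt w := by
    intro u hu
    by_cases e1 : u = p
    · rw [e1]; exact hwp.ne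
    by_cases e2 : u = sw p
    · rw [e2]; exact hwsp.ne'
    by_cases e3 : u = v
    · rw [e3]; exact hwv.ne
    by_cases e4 : u = sw v
    · rw [e4]; exact hwsv.ne'
    rw [hseg]
    rcases hpos u hu p hp e1 e2 y hy with ⟨h6, _⟩ | ⟨h6, _⟩
    · have h7 := hsep u hu e1 e2 e3 e4 h6
      have : 0 < (1 - s) * side y u.1 u.2 + s * side y' u.1 u.2 := by
        have h8 := mul_pos (by linarith : 0 < 1 - s) h6
        have h9 := mul_pos hs0 h7
        linarith
      exact this.ne'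
    · -- apply to the reversed leaf
      have g1 : sw u ≠ p := fun h => e2 (by rw [← h])
      have g2 : sw u ≠ sw p := fun h => e1 (by
        have := congrArg sw h
        exact this)
      have g3 : sw u ≠ v := fun h => e4 (by rw [← h])
      have g4 : sw u ≠ sw v := fun h => e3 (by
        have := congrArg sw h
        exact this)
      have h6' : 0 < side y (sw u).1 (sw u).2 := by
        show 0 < side y u.2 u.1
        rw [hasw]; linarith
      have h7 : 0 < side y' u.2 u.1 := hsep (sw u) (S.swap u hu) g1 g2 g3 g4 h6'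
      rw [hasw] at h7
      have h8 := mul_pos (by linarith : 0 < 1 - s) (neg_pos.2 h6)
      have h9 := mul_pos hs0 h7
      have : (1 - s) * side y u.1 u.2 + s * side y' u.1 u.2 < 0 := by linarith
      exact this.ne
  have hnear : S.Near p w := by
    refine ⟨hoff, hwp, ?_⟩
    intro q hq hqw hin
    have h1 : 0 < side y q.1 q.2 := hPT3.1 p q y hin hy.ge
    have hqw' : side w q.1 q.2 < 0 := hqw
    rw [hseg] at hqw'
    have h2 : side y' q.1 q.2 < 0 := by
      by_contra h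
      have h8 := mul_pos (by linarith : 0 < 1 - s) h1
      have h9 := mul_nonneg hs0.le (not_lt.1 h)
      linarith
    have e1 : q ≠ p := by
      rintro rfl
      exact f6 _ _ ⟨hin, hin⟩
    have e2 : q ≠ sw p := by
      rintro rfl
      have : Facing p p := (f2 _ _).2 hin
      exact (hne _ _ _ this.1).2.2 rfl
    have e3 : q ≠ v := by
      rintro rfl
      exact f7 _ _ ⟨hin, hFpv⟩
    have e4 : q ≠ sw v := by
      rintro rfl
      have h3 : 0 < side w v.2 v.1 := hwsv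
      have h4 : side w v.2 v.1 < 0 := hqw
      linarith
    have := hsep q hq e1 e2 e3 e4 h1
    linarith
  -- the chain of `b` and the point `w`
  have hfront : ∀ i j, i < j → side w (ch.A j).1 (ch.A j).2 < 0 →
      side w (ch.A i).1 (ch.A i).2 < 0 := by
    intro i j hij h
    by_contra h1
    have := hPT3.1 _ _ w (ch.mono i j hij) (not_lt.1 h1)
    linarith
  have hinj : Function.Injective ch.A := by
    intro i j hij
    rcases lt_trichotomy i j with h | h | h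
    · have := ch.mono i j h
      rw [hij] at this
      exact absurd ⟨this, this⟩ (f6 _ _)
    · exact h
    · have := ch.mono j i h
      rw [hij] at this
      exact absurd ⟨this, this⟩ (f6 _ _)
  obtain ⟨a0, ha0⟩ := hPT5.2.1 (ch.A 0).1 (ch.A 0).2 (S.closed _ (ch.mem 0).1).1
  have hfin := (hG5 Γ hΓ S).2.1 w a0
  have hex1 : ∃ i, side w (ch.A i).1 (ch.A i).2 < 0 := by
    by_contra hcon
    push Not at hcon
    apply (Set.infinite_of_injective_forall_mem
      (f := fun m : ℕ => ch.A (-(m : ℤ) - 1)) (fun m m' h => by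
        have := hinj h
        omega) (fun m => ?_)).not_finite hfin
    refine ⟨(ch.mem _).1, ?_⟩
    have h1 := ch.mono (-(m : ℤ) - 1) 0 (by omega)
    have h2 := (f3 _ _).1 h1
    have h3 : side a0 (ch.A 0).2 (ch.A 0).1 = 0 := by rw [hasw, ha0, neg_zero]
    have h4 := hPT3.1 _ _ a0 h2 h3.ge
    simp only at h4
    rw [hasw] at h4
    have h5 := hcon (-(m : ℤ) - 1)
    nlinarith
  have hex2 : ∃ i, ¬ side w (ch.A i).1 (ch.A i).2 < 0 := by
    by_contra hcon
    push Not at hcon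
    apply (Set.infinite_of_injective_forall_mem
      (f := fun m : ℕ => ch.A ((m : ℤ) + 1)) (fun m m' h => by
        have := hinj h
        omega) (fun m => ?_)).not_finite hfin
    refine ⟨(ch.mem _).1, ?_⟩
    have h1 := ch.mono 0 ((m : ℤ) + 1) (by omega)
    have h4 := hPT3.1 _ _ a0 h1 ha0.ge
    have h5 := hcon ((m : ℤ) + 1)
    nlinarith
  obtain ⟨i2, hi2⟩ := hex2
  obtain ⟨i, hi, himax⟩ := Int.exists_greatest_of_bdd
    (P := fun i : ℤ => side w (ch.A i).1 (ch.A i).2 < 0)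
    ⟨i2, fun z hz => by
      by_contra h
      exact hi2 (hfront i2 z (not_le.1 h) hz)⟩ hex1
  have hnearA : S.Near (ch.A i) w := by
    refine ⟨hoff, hi, ?_⟩
    intro q hq hqw hin
    obtain ⟨g1, g2⟩ := id hin
    -- `b.2` is behind `q`
    have c1 : Behind q b.2 := by
      have h1 : Cyc (ch.A i).1 b.2 (ch.A i).2 := (ch.mem i).2.1
      have h2 := hrot _ _ _ g1
      -- Cyc A1 A2 q1
      have h3 := (htr _ _ _ _ h1 h2).2
      -- Cyc b2 A2 q1
      have h4 := hrot _ _ _ (hrot _ _ _ h3)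
      -- Cyc q1 b2 A2
      exact (htr _ _ _ _ h4 g2).1
    have c2 : Behind (sw q) b.1 := by
      obtain ⟨n1, n2, n3, n4⟩ := hend q hq
      rcases htot q.2 b.1 q.1 n2.symm n1 (S.closed q hq).1 with h | h
      · exact h
      · exfalso
        -- Cyc q.2 q.1 b.1 : b.1 behind q
        have h1 : Cyc q.1 b.1 q.2 := hrot _ _ _ h
        have c1' : Cyc q.1 b.2 q.2 := c1
        have hin2 : Inside b q ∨ Inside (sw b) q := by
          rcases htot q.1 b.1 b.2 n1.symm hbne n3 with h2 | h2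
          · exact Or.inl ⟨h2, c1'⟩
          · exact Or.inr ⟨h2, h1⟩
        have h3 : 0 < side w q.1 q.2 := by
          rcases hin2 with h2 | h2
          · exact hPT3.1 b q w h2 hwb.ge
          · refine hPT3.1 (sw b) q w h2 ?_
            show 0 ≤ side w b.2 b.1
            rw [hasw, hwb, neg_zero]
        have h4 : side w q.1 q.2 < 0 := hqw
        linarith
    obtain ⟨j, hj⟩ := ch.all q hq c1 c2
    rw [hj] at hin hqw
    rcases lt_trichotomy i j with h | h | h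
    · have := himax j hqw
      omega
    · rw [h] at hin
      exact f6 _ _ ⟨hin, hin⟩
    · exact f6 _ _ ⟨hin, ch.mono j i h⟩
  have hfinal := (hP4 Γ hΓ S p hp (ch.A i) (ch.mem i).1 w hnear).1 hnearA
  apply hnc
  refine ⟨ch.A i, (ch.mem i).1, ?_, (ch.mem i).2.1, (ch.mem i).2.2⟩
  rcases hfinal with h | h
  · exact Or.inl h
  · exact Or.inr (hsym _ _ h)

theorem WF3 (hB2 : BD2_stmt) (hB4 : BD4_stmt) (hB12 : BD12_stmt) (hPT1 : PT1_stmt)
    (hPT2 : PT2_stmt) (hPT3 : PT3_stmt) (hPT5 : PT5_stmt) (hG3 : GM3_stmt) (hG5 : GM5_stmt)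
    (hP2 : PN2_stmt) (hP4 : PN4_stmt) (hC2 : CH2_stmt) : WF3_stmt := by
  intro Γ J K c τ hτ b hb hnc
  obtain ⟨γ, hγ, rfl⟩ := hb
  obtain ⟨ch⟩ := WF3_chain hB2 hP2 c hγ
  have hl : c.l ∈ c.X.S'.L := c.X.D'.memP c.k
  have hbc : IsClosedGeodesic Γ (ga γ c.l).1 (ga γ c.l).2 :=
    c.X.S'.closed _ (c.X.S'.inv γ hγ _ hl)
  exact WF3_core hB4 hB12 hPT1 hPT2 hPT3 hPT5 hG3 hG5 hP2 hP4 hC2 c.hΓ c.X.S _ τ.1 hbc ch
    hτ.1.1 hnc

end AdSBend
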